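import Mathlib
import Pool.Agent.H63.Bulk.Split

set_option autoImplicit false

/-! The periodic graph: shifts and changes of single edges. -/

open MeasureTheory Filter Topology

namespace Pool.Agent.H63.Four

open Pool.Agent.H63.Bulk
open Pool.Agent.H65.Perc (infinitePi_map_comp_injective)

/-- the upper neighbours -/
def nb (u : ℤ × ℤ) (d : Bool) : ℤ × ℤ := if d = true then (u.1 + 1, u.2) else (u.1, u.2 + 1)

/-- the index of the edge from `u` to `nb u d` -/
def ix (n : ℕ) (u : ℤ × ℤ) (d : Bool) : ℤ × ZMod n × Bool := (u.1 + u.2, (u.1 : ZMod n), d)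

/-- the shift by `m` periods -/
def sh (n : ℕ) (m : ℤ) (u : ℤ × ℤ) : ℤ × ℤ := (u.1 + m * n, u.2 - m * n)

theorem nb_true (u : ℤ × ℤ) : nb u true = (u.1 + 1, u.2) := by simp [nb]
theorem nb_false (u : ℤ × ℤ) : nb u false = (u.1, u.2 + 1) := by simp [nb]

section basic

variable {n : ℕ}

theorem sh_zero (u : ℤ × ℤ) : sh n 0 u = u := by simp [sh]

theorem sh_sh (m m' : ℤ) (u : ℤ × ℤ) : sh n m (sh n m' u) = sh n (m + m') u := by
  simp only [sh, Prod.mk.injEq]; constructor <;> ring

theorem sh_neg (m : ℤ) (u : ℤ × ℤ) : sh n (-m) (sh n m u) = u := by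
  rw [sh_sh, neg_add_cancel, sh_zero]

theorem sh_neg' (m : ℤ) (u : ℤ × ℤ) : sh n m (sh n (-m) u) = u := by
  rw [sh_sh, add_neg_cancel, sh_zero]

theorem sh_nb (m : ℤ) (u : ℤ × ℤ) (d : Bool) : sh n m (nb u d) = nb (sh n m u) d := by
  cases d
  · rw [nb_false, nb_false]
    refine Prod.ext rfl ?_
    simp only [sh]; ring
  · rw [nb_true, nb_true]
    refine Prod.ext ?_ rfl
    simp only [sh]; ring

theorem ix_sh (m : ℤ) (u : ℤ × ℤ) (d : Bool) : ix n (sh n m u) d = ix n u d := by
  refine Prod.ext ?_ (Prod.ext ?_ rfl)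
  · simp only [sh, ix]; ring
  · simp only [sh, ix]
    push_cast
    simp

theorem ix_eq {u v : ℤ × ℤ} {d d' : Bool} (h : ix n u d = ix n v d') :
    d = d' ∧ ∃ m : ℤ, v = sh n m u := by
  simp only [ix, Prod.mk.injEq] at h
  obtain ⟨h1, h2, h3⟩ := h
  refine ⟨h3, ?_⟩
  rw [ZMod.intCast_eq_intCast_iff_dvd_sub] at h2
  obtain ⟨m, hm⟩ := h2
  refine ⟨m, Prod.ext ?_ ?_⟩
  · simp only [sh]; linarith
  · simp only [sh]; linarith

theorem adj_iff (ω : BConf n) (u v : ℤ × ℤ) : (bulkGraph n ω).Adj u v ↔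
    ∃ d, (v = nb u d ∧ ω (ix n u d) = true) ∨ (u = nb v d ∧ ω (ix n v d) = true) := by
  rw [bulk_adj_iff]
  have hne : ∀ (u : ℤ × ℤ) d, nb u d ≠ u := by
    intro u d h
    cases d
    · rw [nb_false] at h
      have := congrArg Prod.snd h
      simp at this
    · rw [nb_true] at h
      have := congrArg Prod.fst h
      simp at this
  constructor
  · rintro ⟨_, (⟨h1, h2⟩ | ⟨h1, h2⟩) | (⟨h1, h2⟩ | ⟨h1, h2⟩)⟩
    · exact ⟨true, Or.inl ⟨by rw [nb_true]; exact h1, h2⟩⟩
    · exact ⟨false, Or.inl ⟨by rw [nb_false]; exact h1, h2⟩⟩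
    · exact ⟨true, Or.inr ⟨by rw [nb_true]; exact h1, h2⟩⟩
    · exact ⟨false, Or.inr ⟨by rw [nb_false]; exact h1, h2⟩⟩
  · rintro ⟨d, ⟨h1, h2⟩ | ⟨h1, h2⟩⟩
    · refine ⟨by rw [h1]; exact (hne u d).symm, Or.inl ?_⟩
      cases d
      · rw [nb_false] at h1; exact Or.inr ⟨h1, h2⟩
      · rw [nb_true] at h1; exact Or.inl ⟨h1, h2⟩
    · refine ⟨by rw [h1]; exact (hne v d), Or.inr ?_⟩
      cases d
      · rw [nb_false] at h1; exact Or.inr ⟨h1, h2⟩
      · rw [nb_true] at h1; exact Or.inl ⟨h1, h2⟩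

/-- connection in the periodic graph -/
def Rc (n : ℕ) (ω : BConf n) (u v : ℤ × ℤ) : Prop := (bulkGraph n ω).Reachable u v

theorem Rc.refl (ω : BConf n) (u : ℤ × ℤ) : Rc n ω u u := SimpleGraph.Reachable.refl _
theorem Rc.symm {ω : BConf n} {u v : ℤ × ℤ} (h : Rc n ω u v) : Rc n ω v u :=
  SimpleGraph.Reachable.symm h
theorem Rc.trans {ω : BConf n} {u v w : ℤ × ℤ} (h : Rc n ω u v) (h' : Rc n ω v w) : Rc n ω u w :=
  SimpleGraph.Reachable.trans h h'

theorem Rc.edge {ω : BConf n} {u : ℤ × ℤ} {d : Bool} (h : ω (ix n u d) = true) :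
    Rc n ω u (nb u d) :=
  SimpleGraph.Adj.reachable ((adj_iff ω _ _).2 ⟨d, Or.inl ⟨rfl, h⟩⟩)

/-- sets closed under open edges -/
theorem Rc.closed {ω : BConf n} {S : ℤ × ℤ → Prop}
    (hS : ∀ u d, ω (ix n u d) = true → (S u ↔ S (nb u d))) {u v : ℤ × ℤ} (h : Rc n ω u v) :
    S u ↔ S v := by
  unfold Rc at h
  rw [SimpleGraph.reachable_iff_reflTransGen] at h
  induction h with
  | refl => exact Iff.rfl
  | tail _ h ih =>
    refine ih.trans ?_
    obtain ⟨d, ⟨rfl, h2⟩ | ⟨rfl, h2⟩⟩ := (adj_iff ω _ _).1 h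
    · exact hS _ d h2
    · exact (hS _ d h2).symm

theorem Rc.shift {ω : BConf n} {u v : ℤ × ℤ} (h : Rc n ω u v) (m : ℤ) :
    Rc n ω (sh n m u) (sh n m v) := by
  have := (Rc.closed (S := fun w => Rc n ω (sh n m u) (sh n m w)) (ω := ω) ?_ h).1 (Rc.refl _ _)
  · exact this
  · intro w d hw
    have h1 : Rc n ω (sh n m w) (sh n m (nb w d)) := by
      rw [sh_nb]
      exact Rc.edge (by rw [ix_sh]; exact hw)
    exact ⟨fun h => h.trans h1, fun h => h.trans h1.symm⟩

/-- shift both ends back -/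
theorem Rc.unshift {ω : BConf n} {u v : ℤ × ℤ} {m : ℤ} (h : Rc n ω (sh n m u) (sh n m v)) :
    Rc n ω u v := by
  have := h.shift (-m)
  rwa [sh_neg, sh_neg] at this

/-- the cluster of `u` winds -/
def Wd (n : ℕ) (ω : BConf n) (u : ℤ × ℤ) : Prop := ∃ m : ℤ, m ≠ 0 ∧ Rc n ω u (sh n m u)

theorem Wd.of_rc {ω : BConf n} {u v : ℤ × ℤ} (h : Rc n ω u v) (hw : Wd n ω u) : Wd n ω v := by
  obtain ⟨m, hm, h'⟩ := hw
  exact ⟨m, hm, h.symm.trans (h'.trans (h.shift m))⟩

theorem Wd.of_sh {ω : BConf n} {u : ℤ × ℤ} {k : ℤ} (hw : Wd n ω (sh n k u)) : Wd n ω u := by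
  obtain ⟨m, hm, h'⟩ := hw
  refine ⟨m, hm, Rc.unshift (m := k) ?_⟩
  rw [sh_sh] at h'
  rwa [sh_sh, add_comm]

/-- the state of one edge (with all its translates) is changed -/
def upd (n : ℕ) (ω : BConf n) (i : ℤ × ZMod n × Bool) (b : Bool) : BConf n :=
  Function.update ω i b

theorem upd_same (ω : BConf n) (i : ℤ × ZMod n × Bool) (b : Bool) : upd n ω i b i = b := by
  simp [upd]

theorem upd_ne (ω : BConf n) {i j : ℤ × ZMod n × Bool} (b : Bool) (h : j ≠ i) :
    upd n ω i b j = ω j := by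
  simp [upd, h]

theorem upd_self {ω : BConf n} {i : ℤ × ZMod n × Bool} {b : Bool} (h : ω i = b) :
    upd n ω i b = ω := by
  rw [← h]; exact Function.update_eq_self i ω

theorem Rc.mono {ω ω' : BConf n} (h : ∀ i, ω i = true → ω' i = true) {u v : ℤ × ℤ}
    (h' : Rc n ω u v) : Rc n ω' u v := by
  have := (Rc.closed (S := fun w => Rc n ω' u w) (ω := ω) ?_ h').1 (Rc.refl _ _)
  · exact this
  · intro w d hw
    have h1 : Rc n ω' w (nb w d) := Rc.edge (h _ hw)
    exact ⟨fun h => h.trans h1, fun h => h.trans h1.symm⟩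

theorem upd_false_le {ω : BConf n} {i : ℤ × ZMod n × Bool} (j : ℤ × ZMod n × Bool)
    (h : upd n ω i false j = true) : ω j = true := by
  by_cases hj : j = i
  · subst hj; rw [upd_same] at h; exact absurd h (by decide)
  · rwa [upd_ne _ _ hj] at h

theorem le_upd_true {ω : BConf n} {i : ℤ × ZMod n × Bool} (j : ℤ × ZMod n × Bool)
    (h : ω j = true) : upd n ω i true j = true := by
  by_cases hj : j = i
  · subst hj; rw [upd_same]
  · rwa [upd_ne _ _ hj]

end basic

/-- **the edge from `u` to `nb u d` is pivotal for the winding of its ends** -/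
def Piv (n : ℕ) (u : ℤ × ℤ) (d : Bool) (ω : BConf n) : Prop :=
  ¬ Rc n (upd n ω (ix n u d) false) u (nb u d) ∧
    (∃ m : ℤ, m ≠ 0 ∧ Rc n (upd n ω (ix n u d) false) u (sh n m (nb u d))) ∧
      ¬ Wd n (upd n ω (ix n u d) false) u

/-! ### probabilities -/

section prob

variable {n : ℕ}

theorem coin_not : ((PMF.uniformOfFintype Bool).toMeasure).map (fun b => !b) =
    (PMF.uniformOfFintype Bool).toMeasure := by
  apply Measure.ext_of_singleton
  intro b
  rw [Measure.map_apply (measurable_of_finite _) (MeasurableSet.singleton _)]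
  have e : (fun b : Bool => !b) ⁻¹' {b} = {!b} := by
    ext c
    cases b <;> cases c <;> simp
  rw [e, PMF.toMeasure_apply_singleton _ _ (MeasurableSet.singleton _),
    PMF.toMeasure_apply_singleton _ _ (MeasurableSet.singleton _)]
  simp

/-- flip one edge -/
def flip (n : ℕ) (i : ℤ × ZMod n × Bool) (ω : BConf n) : BConf n :=
  fun j => if j = i then !(ω j) else ω j

theorem measurable_flip (i : ℤ × ZMod n × Bool) : Measurable (flip n i) := by
  refine measurable_pi_lambda _ fun j => ?_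
  unfold flip
  by_cases h : j = i
  · simp only [h, if_true]
    exact (measurable_of_finite (fun b : Bool => !b)).comp (measurable_pi_apply _)
  · simp only [h, if_false]
    exact measurable_pi_apply _

theorem map_flip (i : ℤ × ZMod n × Bool) : (bulkMeasure n).map (flip n i) = bulkMeasure n := by
  unfold bulkMeasure
  have h := Measure.infinitePi_map_pi (μ := fun _ : ℤ × ZMod n × Bool =>
    (PMF.uniformOfFintype Bool).toMeasure) (f := fun j => if j = i then (fun b => !b) else id)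
    (fun j => measurable_of_finite _)
  have e : flip n i = fun (x : BConf n) j => (if j = i then (fun b : Bool => !b) else id) (x j) := by
    funext x j
    unfold flip
    split_ifs <;> rfl
  rw [e, h]
  congr 1
  funext j
  split_ifs
  · exact coin_not
  · exact Measure.map_id

theorem upd_or (ω : BConf n) (i : ℤ × ZMod n × Bool) (b : Bool) :
    upd n ω i b = ω ∨ upd n ω i b = flip n i ω := by
  by_cases h : ω i = b
  · exact Or.inl (upd_self h)
  · right
    funext j
    unfold flip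
    by_cases hj : j = i
    · subst hj
      rw [upd_same, if_pos rfl]
      cases b <;> cases hω : ω j <;> simp_all
    · rw [upd_ne _ _ hj, if_neg hj]

/-- **changing one edge costs a factor `2`** -/
theorem prob_upd {A B : Set (BConf n)} (hB : MeasurableSet B) (i : ℤ × ZMod n × Bool)
    (b : Bool) (h : ∀ ω ∈ A, upd n ω i b ∈ B) :
    ((bulkMeasure n) A).toReal ≤ 2 * ((bulkMeasure n) B).toReal := by
  have h1 : A ⊆ B ∪ flip n i ⁻¹' B := by
    intro ω hω
    rcases upd_or ω i b with h2 | h2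
    · left; rw [← h2]; exact h ω hω
    · right; show flip n i ω ∈ B; rw [← h2]; exact h ω hω
  have h2 : (bulkMeasure n) (flip n i ⁻¹' B) = (bulkMeasure n) B := by
    rw [← Measure.map_apply (measurable_flip i) hB, map_flip]
  have h3 : (bulkMeasure n) A ≤ (bulkMeasure n) B + (bulkMeasure n) B :=
    (measure_mono h1).trans ((measure_union_le _ _).trans (by rw [h2]))
  have h4 := ENNReal.toReal_mono (by finiteness) h3
  rw [ENNReal.toReal_add (by finiteness) (by finiteness)] at h4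
  linarith

/-! ### measurability -/

theorem measurable_Rc_upd (i : ℤ × ZMod n × Bool) (b : Bool) :
    Measurable (fun ω : BConf n => upd n ω i b) := by
  refine measurable_pi_lambda _ fun j => ?_
  by_cases h : j = i
  · subst h
    simp only [upd_same]
    exact measurable_const
  · simp only [upd_ne _ _ h]
    exact measurable_pi_apply _

theorem measurable_Rc (u v : ℤ × ℤ) : MeasurableSet {ω : BConf n | Rc n ω u v} :=
  Pool.Agent.H65.Perc.measurableSet_reachable _ (fun u v => measurableSet_bulkGraph_adj n u v) _ _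

theorem measurable_Wd (u : ℤ × ℤ) : MeasurableSet {ω : BConf n | Wd n ω u} := by
  have : {ω : BConf n | Wd n ω u} = ⋃ m : ℤ, ({_ω | m ≠ 0} ∩ {ω | Rc n ω u (sh n m u)}) := by
    ext ω
    simp [Wd]
  rw [this]
  exact MeasurableSet.iUnion fun m => (MeasurableSet.const _).inter (measurable_Rc _ _)

theorem measurable_Piv (u : ℤ × ℤ) (d : Bool) : MeasurableSet {ω : BConf n | Piv n u d ω} := by
  have h1 := measurable_Rc_upd (n := n) (ix n u d) false
  have : {ω : BConf n | Piv n u d ω} = (fun ω : BConf n => upd n ω (ix n u d) false) ⁻¹'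
      ({ω | Rc n ω u (nb u d)}ᶜ ∩ (⋃ m : ℤ, ({_ω | m ≠ 0} ∩ {ω | Rc n ω u (sh n m (nb u d))})) ∩
        {ω | Wd n ω u}ᶜ) := by
    ext ω
    simp [Piv, and_assoc]
  rw [this]
  refine h1 (((measurable_Rc _ _).compl.inter ?_).inter (measurable_Wd _).compl)
  exact MeasurableSet.iUnion fun m => (MeasurableSet.const _).inter (measurable_Rc _ _)

end prob

end Pool.Agent.H63.Four
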