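import Pool.Agent.H51.TA.Num
import Pool.Agent.H51.TA.Form
import Pool.Agent.H51.TA.Main

set_option autoImplicit false

/-!
# The four-leg event and the four-leg functions: definitions (MP_fe58d8_pr)

Positions `0, 1` carry the four legs (lower `0`, lower `1`, upper `0`, upper `1`) of the vertex.
-/

namespace Pool.Agent.H63.Four

open Pool.Agent.H51.TA Finset

/-- no contractible loop around the gap `c` -/
def NL {L : ℕ} (π π' : Pat L) (c : ℤ) : Prop := mc π.t π'.t c = 0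

/-- the four-leg event: in one of the two states (identity, `e 0`) of the vertex at the positions
`0, 1` two different non-contractible loops pass through the vertex -/
def FourLeg {L : ℕ} (π π' : Pat L) : Prop :=
  (NL π π' 1 ∧ ¬ NL π (e 0 π') 1 ∧ ¬ NL (e 0 π) π' 1) ∨
    (NL π (e 0 π') 0 ∧ ¬ NL π π' 0 ∧ ¬ NL π π' 2)

open Classical in
/-- indicator of the four-leg event -/
noncomputable def I4 {L : ℕ} (π π' : Pat L) : ℂ := if FourLeg π π' then 1 else 0

/-- prepend three entries -/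
def cons3 {n : ℕ} (x y z : ℂ) (b : Fin (2 * n + 1) → ℂ) : Fin (2 * (n + 1 + 1)) → ℂ :=
  cons2 x y (Fin.cons z b : Fin (2 * n + 1 + 1) → ℂ)

/-- prepend one entry -/
def cons1 {n : ℕ} (x : ℂ) (b : Fin (2 * n + 1) → ℂ) : Fin (2 * (n + 1)) → ℂ :=
  (Fin.cons x b : Fin (2 * n + 1 + 1) → ℂ)

/-- append one entry -/
def snoc1 {n : ℕ} (b : Fin (2 * n + 1) → ℂ) (x : ℂ) : Fin (2 * (n + 1)) → ℂ :=
  (Fin.snoc b x : Fin (2 * n + 1 + 1) → ℂ)

/-- a family of functions, one for each size -/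
abbrev Fam := ∀ n : ℕ, [NeZero n] → (Fin (2 * n) → ℂ) → Pat (2 * n) → ℂ

/-- two lower legs `x0, x1`, two upper legs `y0, y1`, matched strands `Z` -/
noncomputable def G22 (Φ : Fam) (n : ℕ) (x0 x1 y0 y1 : ℂ) (Z : Fin (2 * n) → ℂ) : ℂ :=
  ∑ π : Pat (2 * (n + 1)), ∑ π' : Pat (2 * (n + 1)),
    Φ (n + 1) (cons2 x0 x1 Z) π * Φ (n + 1) (fun i => 1 - cons2 y0 y1 Z i) π' * I4 π π'

/-- one lower leg `x`, three upper legs `y0, y1, y2`, matched strands `Z` -/
noncomputable def G13 (Φ : Fam) (n : ℕ) (x y0 y1 y2 : ℂ) (Z : Fin (2 * n + 1) → ℂ) : ℂ :=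
  ∑ β : Pat (2 * (n + 1)), ∑ π' : Pat (2 * (n + 1 + 1)),
    Φ (n + 1) (cons1 x Z) β * Φ (n + 1 + 1) (fun i => 1 - cons3 y0 y1 y2 Z i) π' *
      I4 (e 1 (insN β)) π'

/-- products over the legs -/
noncomputable def V1 {p : ℕ} (u : Fin p → ℂ) (a : ℂ) : ℂ := ∏ k, D a (u k)

/-- products over the legs -/
noncomputable def V2 {p : ℕ} (u : Fin p → ℂ) (a : ℂ) : ℂ := ∏ k, D (u k) a

/-- the Izergin type determinant with the legs `u` and the matched strands `Z` -/
noncomputable def FF {p m : ℕ} (u : Fin p → ℂ) (Z : Fin m → ℂ) : ℂ :=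
  (Matrix.of fun i j => V1 u (Z i) / D (Z j) (Z i) + V2 u (Z i) / D (Z i) (Z j)).det *
    (∏ i, D (Z i) (Z i)) *
    ∏ i, ∏ j, if i = j then 1 else D (Z i) (Z j) * D (Z j) (Z i) / (Z i - Z j)

/-- the shifted Pascal matrix -/
noncomputable def PP (p m : ℕ) : Matrix (Fin m) (Fin m) ℂ :=
  Matrix.of fun i j => ((((i : ℕ) + j + p).choose i : ℕ) : ℂ)

end Pool.Agent.H63.Four
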