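import Mathlib
import Pool.Agent.H63.Bulk.Abs
import Pool.Agent.H51.TA.Defs

set_option autoImplicit false

/-! The data `Half` for a half-cylinder followed by one Temperley–Lieb generator. -/

namespace Pool.Agent.H63.Four

open Pool.Agent.H63.Bulk
open Pool.Agent.H51.TA (eFun coreT Res eFun_eq_core res_iff res_hI core_ne core_inv)

/-- the relation between gaps after one more generator at the strands `i, i + 1`: the gaps
`i + k L` and `i + 2 + k L` are joined, the gap `i + 1 + k L` is isolated -/
def gapE (L i : ℤ) (R : ℤ → ℤ → Prop) : ℤ → ℤ → Prop :=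
  Relation.EqvGen (fun a b => (R a b ∧ ¬ L ∣ a - (i + 1) ∧ ¬ L ∣ b - (i + 1)) ∨
    ∃ k : ℤ, a = i + k * L ∧ b = i + 2 + k * L)

section gen

variable {L : ℕ} {t : ℤ → ℤ} (hL : 2 ≤ L) (inv : ∀ x, t (t x) = x) (ne : ∀ x, t x ≠ x)
  (per : ∀ x, t (x + L) = t x + L)

include per in
theorem gper_mul (x m : ℤ) : t (x + L * m) = t x + L * m := by
  induction m using Int.induction_on with
  | zero => simp
  | succ m ih =>
    rw [show x + (L : ℤ) * (m + 1) = (x + L * m) + L by ring, per, ih]
    ring
  | pred m ih =>
    have := per (x + L * (-m - 1))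
    rw [show x + (L : ℤ) * (-m - 1) + L = x + L * (-m) by ring, ih] at this
    linarith

include inv ne per in
theorem gnot_dvd (x : ℤ) : ¬ (L : ℤ) ∣ t x - x := by
  rintro ⟨m, hm⟩
  have h1 : t x = x + L * m := by linarith
  have h2 := inv x
  rw [h1, gper_mul per, h1] at h2
  apply ne x
  rw [h1]
  linarith

include inv per in
theorem gdvd_iff (x y : ℤ) : (L : ℤ) ∣ t x - y ↔ (L : ℤ) ∣ x - t y := by
  constructor
  · rintro ⟨m, hm⟩
    have h1 : t x = y + L * m := by linarith
    have h2 := inv x
    rw [h1, gper_mul per] at h2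
    exact ⟨m, by linarith⟩
  · rintro ⟨m, hm⟩
    have h1 : x = t y + L * m := by linarith
    refine ⟨m, ?_⟩
    rw [h1, gper_mul per, inv]
    ring

include inv ne per in
theorem ghA (i k : ℤ) (hk : Res L i k) : ¬ Res L i (t k) := by
  rw [res_iff] at *
  intro h
  apply gnot_dvd inv ne per k
  have := Int.dvd_sub h hk
  rwa [show t k - i - (k - i) = t k - k by ring] at this

include inv ne per in
theorem ghB (i k : ℤ) (hk : Res L i k) : ¬ Res L i (t (k + 1) - 1) := by
  rw [res_iff] at *
  intro h
  apply gnot_dvd inv ne per (k + 1)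
  have := Int.dvd_sub h hk
  rwa [show t (k + 1) - 1 - i - (k - i) = t (k + 1) - (k + 1) by ring] at this

include inv per in
theorem ghC (i k : ℤ) (hk : Res L i k) : (Res L i (t k - 1) ↔ Res L i (t (k + 1))) := by
  rw [res_iff] at *
  have h1 : (L : ℤ) ∣ t k - 1 - i ↔ (L : ℤ) ∣ t k - (k + 1) := by
    constructor
    · intro h
      have := Int.dvd_sub h hk
      rwa [show t k - 1 - i - (k - i) = t k - (k + 1) by ring] at this
    · intro h
      have := Int.dvd_add h hk
      rwa [show t k - (k + 1) + (k - i) = t k - 1 - i by ring] at this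
  have h2 : (L : ℤ) ∣ t (k + 1) - i ↔ (L : ℤ) ∣ k - t (k + 1) := by
    constructor
    · intro h
      have := Int.dvd_sub hk h
      rwa [show k - i - (t (k + 1) - i) = k - t (k + 1) by ring] at this
    · intro h
      have := Int.dvd_sub hk h
      rwa [show k - i - (k - t (k + 1)) = t (k + 1) - i by ring] at this
  rw [h1, gdvd_iff inv per, res_iff, h2]

theorem res_add {i x : ℤ} (m : ℤ) : Res L i (x + m * L) ↔ Res L i x := by
  rw [res_iff, res_iff, show x + m * (L : ℤ) - i = (x - i) + m * L by ring]
  exact (Int.dvd_iff_dvd_of_dvd_sub (by simp))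

theorem not_dvd_iff {i a : ℤ} : (¬ (L : ℤ) ∣ a - (i + 1)) ↔ ¬ Res L i (a - 1) := by
  rw [res_iff, show a - (i + 1) = a - 1 - i by ring]

theorem gapE_shift {i : ℤ} {R : ℤ → ℤ → Prop}
    (hs : ∀ k k' m, R k k' → R (k + m * (L : ℤ)) (k' + m * L)) {a b : ℤ} (h : gapE L i R a b)
    (m : ℤ) : gapE L i R (a + m * L) (b + m * L) := by
  induction h with
  | rel a b h =>
    refine Relation.EqvGen.rel _ _ ?_
    rcases h with ⟨h, h1, h2⟩ | ⟨k, rfl, rfl⟩
    · refine Or.inl ⟨hs _ _ _ h, ?_, ?_⟩
      · rw [not_dvd_iff] at h1 ⊢
        rw [show a + m * (L : ℤ) - 1 = (a - 1) + m * L by ring, res_add]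
        exact h1
      · rw [not_dvd_iff] at h2 ⊢
        rw [show b + m * (L : ℤ) - 1 = (b - 1) + m * L by ring, res_add]
        exact h2
    · exact Or.inr ⟨k + m, by ring, by ring⟩
  | refl a => exact Relation.EqvGen.refl _
  | symm a b _ ih => exact ih.symm _ _
  | trans a b c _ _ ih1 ih2 => exact ih1.trans _ _ _ ih2

/-- functions constant along `gapE` -/
theorem gapE_const {i : ℤ} {R : ℤ → ℤ → Prop} {z : ℤ → ℤ}
    (h1 : ∀ a b, R a b → ¬ Res L i (a - 1) → ¬ Res L i (b - 1) → z a = z b)
    (h2 : ∀ s, Res L i s → z (s + 2) = z s) {a b : ℤ} (h : gapE L i R a b) : z a = z b := by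
  induction h with
  | rel a b h =>
    rcases h with ⟨h, h3, h4⟩ | ⟨k, rfl, rfl⟩
    · rw [not_dvd_iff] at h3 h4
      exact h1 a b h h3 h4
    · have := h2 (i + k * L) ((res_add k).2 (by rw [res_iff]; simp))
      rw [← this]
      congr 1
      ring
  | refl a => rfl
  | symm a b _ ih => exact ih.symm
  | trans a b c _ _ ih1 ih2 => exact ih1.trans ih2

include hL inv ne per in
/-- **one more generator** -/
theorem half_e {R : ℤ → ℤ → Prop} (H : Half (L : ℤ) t R) (hR : Equivalence R) (i : ℤ) :
    Half (L : ℤ) (eFun L i t) (gapE L i R) := by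
  have hI : ∀ k, Res L i k → ¬ Res L i (k + 1) := res_hI hL i
  have hA : ∀ k, Res L i k → ¬ Res L i (t k) := ghA inv ne per i
  have hB : ∀ k, Res L i k → ¬ Res L i (t (k + 1) - 1) := ghB inv ne per i
  have hC : ∀ k, Res L i k → (Res L i (t k - 1) ↔ Res L i (t (k + 1))) := ghC inv per i
  have hI' : ∀ k, Res L i k → ¬ Res L i (k - 1) := by
    intro k h1 h2
    have := hI _ h2
    rw [sub_add_cancel] at this
    exact this h1
  have rep : ∀ k, Res L i k → ∃ m : ℤ, k = i + m * L := by
    intro k hk
    rw [res_iff] at hk
    obtain ⟨m, hm⟩ := hk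
    exact ⟨m, by linarith⟩
  have gen1 : ∀ a b, R a b → ¬ Res L i (a - 1) → ¬ Res L i (b - 1) → gapE L i R a b := by
    intro a b h h1 h2
    exact Relation.EqvGen.rel _ _ (Or.inl ⟨h, not_dvd_iff.2 h1, not_dvd_iff.2 h2⟩)
  have gen2 : ∀ k, Res L i k → gapE L i R k (k + 2) := by
    intro k hk
    obtain ⟨m, rfl⟩ := rep k hk
    exact Relation.EqvGen.rel _ _ (Or.inr ⟨m, rfl, by ring⟩)
  rw [eFun_eq_core]
  refine ⟨core_inv inv hI hA hB hC, fun k => core_ne inv k ne, ?_, ?_, ?_⟩
  · -- connections
    intro k
    by_cases h1 : Res L i k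
    · have : coreT t (Res L i) k = k + 1 := by simp [coreT, h1]
      rw [this, add_assoc]
      exact gen2 k h1
    by_cases h2 : Res L i (k - 1)
    · have : coreT t (Res L i) k = k - 1 := by simp [coreT, h1, h2]
      rw [this, sub_add_cancel]
      exact Relation.EqvGen.refl _
    by_cases h3 : Res L i (t k)
    · have : coreT t (Res L i) k = t (t k + 1) := by simp [coreT, h1, h2, h3]
      rw [this]
      refine gen1 _ _ (hR.trans (H.conn k) (H.conn (t k + 1))) h2 ?_
      rw [add_sub_cancel_right]
      intro h4
      have := (hC _ h3).2 h4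
      rw [inv] at this
      exact h2 this
    by_cases h4 : Res L i (t k - 1)
    · have : coreT t (Res L i) k = t (t k - 1) := by simp [coreT, h1, h2, h3, h4]
      rw [this]
      have e1 : gapE L i R k (t k - 1 + 2) := by
        refine gen1 _ _ ?_ h2 ?_
        · have := H.conn k
          rwa [show t k + 1 = t k - 1 + 2 by ring] at this
        · rw [show t k - 1 + 2 - 1 = (t k - 1) + 1 by ring]
          exact hI _ h4
      have e2 := gen2 _ h4
      have e3 : gapE L i R (t k - 1) (t (t k - 1) + 1) := by
        refine gen1 _ _ (H.conn _) (hI' _ h4) ?_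
        rw [add_sub_cancel_right]
        exact hA _ h4
      exact e1.trans _ _ _ ((e2.symm _ _).trans _ _ _ e3)
    · have : coreT t (Res L i) k = t k := by simp [coreT, h1, h2, h3, h4]
      rw [this]
      refine gen1 _ _ (H.conn k) h2 ?_
      rw [add_sub_cancel_right]
      exact h3
  · -- potentials
    intro a
    by_cases h1 : Res L i a
    · have : coreT t (Res L i) a = a + 1 := by simp [coreT, h1]
      rw [this]
      refine ⟨fun k => if k = a + 1 then 1 else 0, ?_, ?_⟩
      · intro k k' h
        refine gapE_const (z := fun k => if k = a + 1 then (1 : ℤ) else 0) ?_ ?_ h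
        · intro x y _ hx hy
          have ex : x ≠ a + 1 := by rintro rfl; rw [add_sub_cancel_right] at hx; exact hx h1
          have ey : y ≠ a + 1 := by rintro rfl; rw [add_sub_cancel_right] at hy; exact hy h1
          simp [ex, ey]
        · intro s hs
          have ex : s + 2 ≠ a + 1 := by
            intro h
            have : s + 1 = a := by omega
            exact hI s hs (by rw [this]; exact h1)
          have ey : s ≠ a + 1 := by rintro rfl; exact hI a h1 hs
          simp [ex, ey]
      · intro k
        have ex : (k + 1 = a + 1) ↔ k = a := by omega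
        simp only [ex]
        ring
    by_cases h2 : Res L i (a - 1)
    · have : coreT t (Res L i) a = a - 1 := by simp [coreT, h1, h2]
      rw [this]
      refine ⟨fun k => if k = a then -1 else 0, ?_, ?_⟩
      · intro k k' h
        refine gapE_const (z := fun k => if k = a then (-1 : ℤ) else 0) ?_ ?_ h
        · intro x y _ hx hy
          have ex : x ≠ a := by rintro rfl; exact hx h2
          have ey : y ≠ a := by rintro rfl; exact hy h2
          simp [ex, ey]
        · intro s hs
          have ex : s + 2 ≠ a := by
            intro h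
            have : s + 1 = a - 1 := by omega
            exact hI s hs (by rw [this]; exact h2)
          have ey : s ≠ a := by rintro rfl; exact h1 hs
          simp [ex, ey]
      · intro k
        have ex : (k + 1 = a) ↔ k = a - 1 := by omega
        simp only [ex]
        split_ifs <;> omega
    by_cases h3 : Res L i (t a)
    · have : coreT t (Res L i) a = t (t a + 1) := by simp [coreT, h1, h2, h3]
      rw [this]
      obtain ⟨p, hp⟩ : ∃ p, p = t a := ⟨_, rfl⟩
      obtain ⟨q, hq⟩ : ∃ q, q = t (p + 1) := ⟨_, rfl⟩
      obtain ⟨z1, hz1, hz1'⟩ := H.pot a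
      obtain ⟨z2, hz2, hz2'⟩ := H.pot (p + 1)
      rw [← hp] at h3 hz1' ⊢
      rw [← hq] at hz2' ⊢
      have tp : t p = a := by rw [hp, inv]
      have q1 : ¬ Res L i q := by
        intro h4
        have := (hC p h3).2 (by rwa [← hq])
        rw [tp] at this
        exact h2 this
      have q2 : ¬ Res L i (q - 1) := by rw [hq]; exact hB p h3
      refine ⟨fun k => z1 k + z2 k + (if k = p + 1 then 1 else 0), ?_, ?_⟩
      · intro k k' h
        refine gapE_const (z := fun k => z1 k + z2 k + (if k = p + 1 then (1 : ℤ) else 0))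
          ?_ ?_ h
        · intro x y hxy hx hy
          have ex : x ≠ p + 1 := by rintro rfl; rw [add_sub_cancel_right] at hx; exact hx h3
          have ey : y ≠ p + 1 := by rintro rfl; rw [add_sub_cancel_right] at hy; exact hy h3
          simp only [ex, ey, if_false, hz1 x y hxy, hz2 x y hxy]
        · intro s hs
          have a1 := hz1' s
          have a2 := hz1' (s + 1)
          have b1 := hz2' s
          have b2 := hz2' (s + 1)
          have c1 : s ≠ a := by rintro rfl; exact h1 hs
          have c2 : s + 1 ≠ a := by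
            intro h; apply h2; rw [← h, add_sub_cancel_right]; exact hs
          have c3 : s ≠ p + 1 := by rintro rfl; exact hI p h3 hs
          have c4 : s + 1 ≠ p := by rintro rfl; exact hI s hs h3
          have c5 : s ≠ q := by rintro rfl; exact q1 hs
          have c6 : s + 1 ≠ q := by
            intro h; apply q2; rw [← h, add_sub_cancel_right]; exact hs
          have c7 : s + 2 ≠ p + 1 := by
            intro h; apply c4; omega
          have e1 : s + 1 + 1 = s + 2 := by ring
          rw [e1] at a2 b2
          simp only [c1, c2, c4, if_false] at a1 a2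
          simp only [c3, c5, c6, if_false] at b1 b2
          simp only [c3, c7, if_false]
          have e2 : (s + 1 = p + 1) ↔ s = p := by omega
          simp only [e2] at b2
          rw [a2, a1, b2, b1]
          ring
      · intro k
        have ex : (k + 1 = p + 1) ↔ k = p := by omega
        simp only [ex, hz1' k, hz2' k]
        ring
    by_cases h4 : Res L i (t a - 1)
    · have : coreT t (Res L i) a = t (t a - 1) := by simp [coreT, h1, h2, h3, h4]
      rw [this]
      obtain ⟨p, hp⟩ : ∃ p, p = t a - 1 := ⟨_, rfl⟩
      obtain ⟨q, hq⟩ : ∃ q, q = t p := ⟨_, rfl⟩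
      obtain ⟨z1, hz1, hz1'⟩ := H.pot a
      obtain ⟨z2, hz2, hz2'⟩ := H.pot p
      have hp' : t a = p + 1 := by omega
      rw [← hp] at h4 ⊢
      rw [hp'] at hz1'
      rw [← hq] at hz2' ⊢
      have tp : t (p + 1) = a := by rw [← hp', inv]
      have q1 : ¬ Res L i q := by rw [hq]; exact hA p h4
      have q2 : ¬ Res L i (q - 1) := by
        intro h5
        have := (hC p h4).1 (by rwa [← hq])
        rw [tp] at this
        exact h1 this
      refine ⟨fun k => z1 k + z2 k - (if k = p + 1 then 1 else 0), ?_, ?_⟩
      · intro k k' h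
        refine gapE_const (z := fun k => z1 k + z2 k - (if k = p + 1 then (1 : ℤ) else 0))
          ?_ ?_ h
        · intro x y hxy hx hy
          have ex : x ≠ p + 1 := by rintro rfl; rw [add_sub_cancel_right] at hx; exact hx h4
          have ey : y ≠ p + 1 := by rintro rfl; rw [add_sub_cancel_right] at hy; exact hy h4
          simp only [ex, ey, if_false, hz1 x y hxy, hz2 x y hxy]
        · intro s hs
          have a1 := hz1' s
          have a2 := hz1' (s + 1)
          have b1 := hz2' s
          have b2 := hz2' (s + 1)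
          have c1 : s ≠ a := by rintro rfl; exact h1 hs
          have c2 : s + 1 ≠ a := by
            intro h; apply h2; rw [← h, add_sub_cancel_right]; exact hs
          have c3 : s ≠ p + 1 := by rintro rfl; exact hI p h4 hs
          have c4 : s + 1 ≠ p := by rintro rfl; exact hI s hs h4
          have c5 : s ≠ q := by rintro rfl; exact q1 hs
          have c6 : s + 1 ≠ q := by
            intro h; apply q2; rw [← h, add_sub_cancel_right]; exact hs
          have c7 : s + 2 ≠ p + 1 := by
            intro h; apply c4; omega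
          have e1 : s + 1 + 1 = s + 2 := by ring
          rw [e1] at a2 b2
          simp only [c1, c2, c3, if_false] at a1 a2
          simp only [c4, c5, c6, if_false] at b1 b2
          simp only [c3, c7, if_false]
          have e2 : (s + 1 = p + 1) ↔ s = p := by omega
          simp only [e2] at a2
          rw [a2, a1, b2, b1]
          ring
      · intro k
        have ex : (k + 1 = p + 1) ↔ k = p := by omega
        simp only [ex, hz1' k, hz2' k]
        ring
    · have : coreT t (Res L i) a = t a := by simp [coreT, h1, h2, h3, h4]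
      rw [this]
      obtain ⟨z1, hz1, hz1'⟩ := H.pot a
      refine ⟨z1, ?_, hz1'⟩
      intro k k' h
      refine gapE_const (fun x y hxy _ _ => hz1 x y hxy) ?_ h
      intro s hs
      have a1 := hz1' s
      have a2 := hz1' (s + 1)
      have c1 : s ≠ a := by rintro rfl; exact h1 hs
      have c2 : s + 1 ≠ a := by
        intro h; apply h2; rw [← h, add_sub_cancel_right]; exact hs
      have c3 : s ≠ t a := by rintro rfl; exact h3 hs
      have c4 : s + 1 ≠ t a := by
        intro h; apply h4; rw [← h, add_sub_cancel_right]; exact hs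
      have e1 : s + 1 + 1 = s + 2 := by ring
      rw [e1] at a2
      simp only [c1, c2, c3, c4, if_false] at a1 a2
      rw [a2, a1]
      ring
  · intro k k' m h
    exact gapE_shift H.shift h m

end gen

end Pool.Agent.H63.Four
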