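import Mathlib
import Pool.Agent.H63.Four.HalfE
import Pool.Agent.H63.Bulk.Law

set_option autoImplicit false

/-! The percolation reading of the events with one more generator (finite height). -/

open MeasureTheory Filter Topology

namespace Pool.Agent.H63.Four

open Pool.Agent.H65.Perc St
open Pool.Agent.H63.Bulk
open Pool.Agent.H51.TA (eFun)

theorem cov_per {L : ℕ} [NeZero L] (s : St (Lab L)) {k : ℤ} (h : ∃ j, s.p (Sum.inl (modFin k)) =
    Sum.inl j) : cov s (k + L) = cov s k + L := by
  obtain ⟨j, hj⟩ := h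
  have hL : (L : ℤ) ≠ 0 := by exact_mod_cast NeZero.ne L
  have h1 : (modFin (k + L) : Fin L) = modFin k := by
    have := modFin_shift (L := L) k 1
    rwa [one_mul] at this
  rw [cov_eq hj, cov_eq (k := k + L) (by rw [h1]; exact hj), h1]
  have h2 : (k + L) / (L : ℤ) = k / L + 1 := by
    rw [Int.add_ediv_of_dvd_right (dvd_refl _), Int.ediv_self hL]
  rw [h2]
  ring

theorem cov_periodic {L : ℕ} [NeZero L] (s : St (Lab L)) (h : ∀ k, cov s k ≠ k) (k : ℤ) :
    cov s (k + L) = cov s k + L := by
  apply cov_per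
  rcases hp : s.p (Sum.inl (modFin k)) with j | q
  · exact ⟨j, rfl⟩
  · exfalso
    apply h k
    unfold cov
    rw [hp]

theorem noLoop_symm {τ τ' : ℤ → ℤ} {c : ℤ} (h : NoLoop τ τ' c) : NoLoop τ' τ c :=
  fun S h1 h2 => h S h2 h1

/-- from even gaps to vertices -/
theorem eqvGen_even {G T : ℤ → ℤ → Prop} (h : ∀ a b : ℤ, G a b → (Even a ↔ Even b) ∧
    (Even a → Relation.EqvGen T (a / 2) (b / 2))) {a b : ℤ} (hab : Relation.EqvGen G a b) :
    (Even a ↔ Even b) ∧ (Even a → Relation.EqvGen T (a / 2) (b / 2)) := by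
  induction hab with
  | rel a b hab => exact h a b hab
  | refl a => exact ⟨Iff.rfl, fun _ => Relation.EqvGen.refl _⟩
  | symm a b _ ih => exact ⟨ih.1.symm, fun h => (ih.2 (ih.1.2 h)).symm _ _⟩
  | trans a b c _ _ ih1 ih2 =>
    exact ⟨ih1.1.trans ih2.1, fun h => (ih1.2 h).trans _ _ _ (ih2.2 (ih1.1.1 h))⟩

/-- generators of generated relations -/
theorem eqvGen_bind {α : Type*} {G T : α → α → Prop} (h : ∀ a b, G a b → Relation.EqvGen T a b)
    {a b : α} (hab : Relation.EqvGen G a b) : Relation.EqvGen T a b := by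
  induction hab with
  | rel a b hab => exact h a b hab
  | refl a => exact Relation.EqvGen.refl _
  | symm a b _ ih => exact ih.symm _ _
  | trans a b c _ _ ih1 ih2 => exact ih1.trans _ _ _ ih2

/-- boundary vertices connected, with the extra edges `k n — k n + 1` -/
def ConnV (n : ℕ) (A B : ℤ → ℤ → Prop) : ℤ → ℤ → Prop :=
  Relation.EqvGen (fun a b => A a b ∨ B a b ∨ ∃ k : ℤ, a = k * n ∧ b = k * n + 1)

/-- boundary vertices connected, where the vertices `k n` have no connections in `B` -/
def ConnS (n : ℕ) (A B : ℤ → ℤ → Prop) : ℤ → ℤ → Prop :=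
  Relation.EqvGen (fun a b => A a b ∨ (B a b ∧ ¬ (n : ℤ) ∣ a ∧ ¬ (n : ℤ) ∣ b))

/-- boundary vertices connected in one half of height `M` -/
def FC {L : ℕ} [NeZero L] (M : ℕ) (ω : ℕ → Fin L → Bool) (a b : ℤ) : Prop :=
  FConn M ω (0, 2 * a) (0, 2 * b)

section fin

variable (n : ℕ) [NeZero n] (M : ℕ) (ω ω' : ℕ → Fin (2 * n) → Bool)

theorem rr_even {a b : ℤ} (h : RR M ω a b) : (Even a ↔ Even b) ∧
    (Even a → FC M ω (a / 2) (b / 2)) := by
  obtain ⟨h1, h2⟩ := Lk.ea_parity h
  simp only at h1 h2
  have h3 : Even a ↔ Even b := by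
    rw [Int.even_iff, Int.even_iff]; push_cast at h1; omega
  refine ⟨h3, fun ha => ?_⟩
  have hb := h3.1 ha
  rw [Int.even_iff] at ha hb
  have e1 : 2 * (a / 2) = a := by omega
  have e2 : 2 * (b / 2) = b := by omega
  unfold FC
  rw [e1, e2]
  exact h2 (by push_cast; omega)

theorem rr_of_fc {a b : ℤ} (h : FC M ω a b) : RR M ω (2 * a) (2 * b) :=
  Relation.EqvGen.mono (fun a b h => Or.inl h) _ _ h

theorem rr_equiv : Equivalence (RR M ω) :=
  ⟨fun _ => Relation.EqvGen.refl _, fun h => h.symm _ _, fun h h' => h.trans _ _ _ h'⟩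

theorem half_data_e (i : ℤ) : Half ((2 * n : ℕ) : ℤ)
    (eFun (2 * n) i (cov (runRows ω M (cap n M)))) (gapE ((2 * n : ℕ) : ℤ) i (RR M ω)) := by
  have hn : 0 < n := Nat.pos_of_ne_zero (NeZero.ne n)
  have H := half_data n M ω
  exact half_e (by omega) H.inv H.ne (cov_periodic _ H.ne) H (rr_equiv n M ω) i

theorem half_arith (x m : ℤ) : 2 * (x + m * n) = 2 * x + m * ((2 * n : ℕ) : ℤ) := by
  push_cast; ring

/-- with the extra edges -/
theorem winds_V (x : ℤ) : (∃ m : ℤ, m ≠ 0 ∧ ConnV n (FC M ω) (FC M ω') x (x + m * n)) ↔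
    NoLoop (cov (runRows ω M (cap n M))) (eFun (2 * n) 0 (cov (runRows ω' M (cap n M))))
      (2 * x) := by
  have hn : (0 : ℤ) < ((2 * n : ℕ) : ℤ) := by
    have := Nat.pos_of_ne_zero (NeZero.ne (2 * n))
    exact_mod_cast this
  rw [← dict hn (half_data n M ω) (half_data_e n M ω' 0) (2 * x)]
  refine exists_congr fun m => and_congr_right fun _ => ?_
  rw [← half_arith]
  constructor
  · intro h
    have key : ∀ a b : ℤ, ConnV n (FC M ω) (FC M ω') a b → Glue (RR M ω)
        (gapE ((2 * n : ℕ) : ℤ) 0 (RR M ω')) (2 * a) (2 * b) := by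
      intro a b hab
      induction hab with
      | rel a b hab =>
        refine Relation.EqvGen.rel _ _ ?_
        rcases hab with h | h | ⟨k, rfl, rfl⟩
        · exact Or.inl (rr_of_fc n M ω h)
        · refine Or.inr (Relation.EqvGen.rel _ _ (Or.inl ⟨rr_of_fc n M ω' h, ?_, ?_⟩))
          · rintro ⟨q, hq⟩
            push_cast at hq
            have : 2 * a - 1 = 2 * (n * q) := by linear_combination hq
            omega
          · rintro ⟨q, hq⟩
            push_cast at hq
            have : 2 * b - 1 = 2 * (n * q) := by linear_combination hq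
            omega
        · refine Or.inr (Relation.EqvGen.rel _ _ (Or.inr ⟨k, ?_, ?_⟩))
          · push_cast; ring
          · push_cast; ring
      | refl a => exact Relation.EqvGen.refl _
      | symm a b _ ih => exact ih.symm _ _
      | trans a b c _ _ ih1 ih2 => exact ih1.trans _ _ _ ih2
    exact key _ _ h
  · intro h
    have key := (eqvGen_even (T := fun a b => FC M ω a b ∨ FC M ω' a b ∨
      ∃ k : ℤ, a = k * n ∧ b = k * n + 1) ?_ h).2 (even_two_mul x)
    · have e1 : 2 * x / 2 = x := by omega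
      have e2 : 2 * (x + m * n) / 2 = x + m * n := by omega
      rw [e1, e2] at key
      exact key
    · rintro a b (h | h)
      · obtain ⟨h1, h2⟩ := rr_even n M ω h
        exact ⟨h1, fun ha => Relation.EqvGen.rel _ _ (Or.inl (h2 ha))⟩
      · refine eqvGen_even ?_ h
        rintro a b (⟨h, -, -⟩ | ⟨k, rfl, rfl⟩)
        · obtain ⟨h1, h2⟩ := rr_even n M ω' h
          exact ⟨h1, fun ha => Relation.EqvGen.rel _ _ (Or.inr (Or.inl (h2 ha)))⟩
        · refine ⟨?_, fun ha => Relation.EqvGen.rel _ _ (Or.inr (Or.inr ⟨k, ?_, ?_⟩))⟩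
          · rw [Int.even_iff, Int.even_iff]; omega
          · have : 0 + k * ((2 * n : ℕ) : ℤ) = 2 * (k * n) := by push_cast; ring
            omega
          · have : 0 + 2 + k * ((2 * n : ℕ) : ℤ) = 2 * (k * n + 1) := by push_cast; ring
            omega

/-- with the split vertices -/
theorem winds_S (x : ℤ) : (∃ m : ℤ, m ≠ 0 ∧ ConnS n (FC M ω) (FC M ω') x (x + m * n)) ↔
    NoLoop (cov (runRows ω M (cap n M))) (eFun (2 * n) (-1) (cov (runRows ω' M (cap n M))))
      (2 * x) := by
  have hn : (0 : ℤ) < ((2 * n : ℕ) : ℤ) := by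
    have := Nat.pos_of_ne_zero (NeZero.ne (2 * n))
    exact_mod_cast this
  rw [← dict hn (half_data n M ω) (half_data_e n M ω' (-1)) (2 * x)]
  refine exists_congr fun m => and_congr_right fun _ => ?_
  rw [← half_arith]
  constructor
  · intro h
    have key : ∀ a b : ℤ, ConnS n (FC M ω) (FC M ω') a b → Glue (RR M ω)
        (gapE ((2 * n : ℕ) : ℤ) (-1) (RR M ω')) (2 * a) (2 * b) := by
      intro a b hab
      induction hab with
      | rel a b hab =>
        refine Relation.EqvGen.rel _ _ ?_
        rcases hab with h | ⟨h, h1, h2⟩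
        · exact Or.inl (rr_of_fc n M ω h)
        · refine Or.inr (Relation.EqvGen.rel _ _ (Or.inl ⟨rr_of_fc n M ω' h, ?_, ?_⟩))
          · rintro ⟨q, hq⟩
            push_cast at hq
            exact h1 ⟨q, by
              have : 2 * a = 2 * (n * q) := by linear_combination hq
              omega⟩
          · rintro ⟨q, hq⟩
            push_cast at hq
            exact h2 ⟨q, by
              have : 2 * b = 2 * (n * q) := by linear_combination hq
              omega⟩
      | refl a => exact Relation.EqvGen.refl _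
      | symm a b _ ih => exact ih.symm _ _
      | trans a b c _ _ ih1 ih2 => exact ih1.trans _ _ _ ih2
    exact key _ _ h
  · intro h
    have key := (eqvGen_even (T := fun a b => FC M ω a b ∨
      (FC M ω' a b ∧ ¬ (n : ℤ) ∣ a ∧ ¬ (n : ℤ) ∣ b)) ?_ h).2 (even_two_mul x)
    · have e1 : 2 * x / 2 = x := by omega
      have e2 : 2 * (x + m * n) / 2 = x + m * n := by omega
      rw [e1, e2] at key
      exact key
    · rintro a b (h | h)
      · obtain ⟨h1, h2⟩ := rr_even n M ω h
        exact ⟨h1, fun ha => Relation.EqvGen.rel _ _ (Or.inl (h2 ha))⟩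
      · refine eqvGen_even ?_ h
        rintro a b (⟨h, g1, g2⟩ | ⟨k, rfl, rfl⟩)
        · obtain ⟨h1, h2⟩ := rr_even n M ω' h
          refine ⟨h1, fun ha => Relation.EqvGen.rel _ _ (Or.inr ⟨h2 ha, ?_, ?_⟩)⟩
          · rintro ⟨q, hq⟩
            apply g1
            rw [Int.even_iff] at ha
            refine ⟨q, ?_⟩
            have : ((2 * n : ℕ) : ℤ) * q = 2 * (n * q) := by push_cast; ring
            omega
          · rintro ⟨q, hq⟩
            apply g2
            have hb := h1.1 ha
            rw [Int.even_iff] at hb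
            refine ⟨q, ?_⟩
            have : ((2 * n : ℕ) : ℤ) * q = 2 * (n * q) := by push_cast; ring
            omega
        · refine ⟨?_, fun ha => ?_⟩
          · rw [Int.even_iff, Int.even_iff]; omega
          · exfalso
            rw [Int.even_iff] at ha
            have : -1 + k * ((2 * n : ℕ) : ℤ) = 2 * (k * n) - 1 := by push_cast; ring
            omega

theorem winds_S' (x : ℤ) : (∃ m : ℤ, m ≠ 0 ∧ ConnS n (FC M ω') (FC M ω) x (x + m * n)) ↔
    NoLoop (eFun (2 * n) (-1) (cov (runRows ω M (cap n M)))) (cov (runRows ω' M (cap n M)))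
      (2 * x) := by
  rw [winds_S n M ω' ω x]
  exact ⟨noLoop_symm, noLoop_symm⟩

end fin

end Pool.Agent.H63.Four
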