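import Mathlib
import Pool.Agent.H63.Four.PercA

set_option autoImplicit false

/-! The percolation reading of the events with one more generator (infinite height). -/

open MeasureTheory Filter Topology

namespace Pool.Agent.H63.Four

open Pool.Agent.H65.Perc St
open Pool.Agent.H63.Bulk
open Pool.Agent.H51.TA (eFun)

theorem eqvGen_iUnion {α : Type*} {G : ℕ → α → α → Prop} {T : α → α → Prop}
    (hmono : ∀ M M', M ≤ M' → ∀ a b, G M a b → G M' a b) (hT : ∀ a b, T a b ↔ ∃ M, G M a b)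
    {a b : α} : Relation.EqvGen T a b ↔ ∃ M, Relation.EqvGen (G M) a b := by
  constructor
  · intro h
    induction h with
    | rel a b h =>
      obtain ⟨M, hM⟩ := (hT a b).1 h
      exact ⟨M, Relation.EqvGen.rel _ _ hM⟩
    | refl a => exact ⟨0, Relation.EqvGen.refl _⟩
    | symm a b _ ih =>
      obtain ⟨M, hM⟩ := ih
      exact ⟨M, hM.symm _ _⟩
    | trans a b c _ _ ih1 ih2 =>
      obtain ⟨M, hM⟩ := ih1
      obtain ⟨M', hM'⟩ := ih2
      refine ⟨max M M', Relation.EqvGen.trans _ b _ ?_ ?_⟩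
      · exact Relation.EqvGen.mono (fun a b h => hmono _ _ (le_max_left _ _) a b h) _ _ hM
      · exact Relation.EqvGen.mono (fun a b h => hmono _ _ (le_max_right _ _) a b h) _ _ hM'
  · rintro ⟨M, hM⟩
    exact Relation.EqvGen.mono (fun a b h => (hT a b).2 ⟨M, h⟩) _ _ hM

theorem eventually_of_mono {P : ℕ → Prop} (h : ∀ M M', M ≤ M' → P M → P M') :
    ∀ᶠ M in atTop, (P M ↔ ∃ M, P M) := by
  by_cases hP : ∃ M, P M
  · obtain ⟨M0, hM0⟩ := hP
    filter_upwards [eventually_ge_atTop M0] with M hM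
    exact ⟨fun h' => ⟨M, h'⟩, fun _ => h M0 M hM hM0⟩
  · exact Eventually.of_forall fun M => ⟨fun h' => ⟨M, h'⟩, fun h' => absurd h' hP⟩

/-- boundary vertices connected in the upper half -/
def upR (n : ℕ) (ω : BConf n) (a b : ℤ) : Prop := (cylGraph n (up n ω)).Reachable (a, -a) (b, -b)

/-- boundary vertices connected in the lower half -/
def dnR (n : ℕ) (ω : BConf n) (a b : ℤ) : Prop := (cylGraph n (dn n ω)).Reachable (a, -a) (b, -b)

/-- the vertex `x` winds -/
def W0 (n : ℕ) (ω : BConf n) (x : ℤ) : Prop := ∃ m : ℤ, m ≠ 0 ∧ KK n ω x (x + m * n)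

/-- the vertex `x` winds if the edges `k n — k n + 1` are added -/
def WV (n : ℕ) (ω : BConf n) (x : ℤ) : Prop :=
  ∃ m : ℤ, m ≠ 0 ∧ ConnV n (upR n ω) (dnR n ω) x (x + m * n)

/-- the upper half of the vertex `0` winds when all `k n` are split -/
def WU (n : ℕ) (ω : BConf n) (x : ℤ) : Prop :=
  ∃ m : ℤ, m ≠ 0 ∧ ConnS n (upR n ω) (dnR n ω) x (x + m * n)

/-- the lower half of the vertex `0` winds when all `k n` are split -/
def WD (n : ℕ) (ω : BConf n) (x : ℤ) : Prop :=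
  ∃ m : ℤ, m ≠ 0 ∧ ConnS n (dnR n ω) (upR n ω) x (x + m * n)

section lim

variable {n : ℕ} [NeZero n]

theorem fc_restr (M : ℕ) (w : CConf n) :
    FC M (extRows (restr n M w)) = FC M (rowsOf n w) := by
  funext a b
  apply propext
  exact ⟨fconn_congr (fun r hr => extRows_restr n M _ r hr) _ _,
    fconn_congr (fun r hr => (extRows_restr n M _ r hr).symm) _ _⟩

theorem fc_mono (w : CConf n) (M M' : ℕ) (h : M ≤ M') (a b : ℤ) (hab : FC M (rowsOf n w) a b) :
    FC M' (rowsOf n w) a b := FConn.mono h hab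

theorem upR_iff (ω : BConf n) (a b : ℤ) : upR n ω a b ↔ ∃ M, FC M (rowsOf n (up n ω)) a b :=
  reach_iff_fconn

theorem dnR_iff (ω : BConf n) (a b : ℤ) : dnR n ω a b ↔ ∃ M, FC M (rowsOf n (dn n ω)) a b :=
  reach_iff_fconn

/-- increasing unions of the winding events -/
theorem wind_lim {G : ℕ → ℤ → ℤ → Prop} {T : ℤ → ℤ → Prop}
    (hmono : ∀ M M', M ≤ M' → ∀ a b, G M a b → G M' a b) (hT : ∀ a b, T a b ↔ ∃ M, G M a b)
    (x : ℤ) : ∀ᶠ M in atTop, ((∃ m : ℤ, m ≠ 0 ∧ Relation.EqvGen (G M) x (x + m * n)) ↔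
      (∃ m : ℤ, m ≠ 0 ∧ Relation.EqvGen T x (x + m * n))) := by
  have h1 : (∃ m : ℤ, m ≠ 0 ∧ Relation.EqvGen T x (x + m * n)) ↔
      ∃ M, ∃ m : ℤ, m ≠ 0 ∧ Relation.EqvGen (G M) x (x + m * n) := by
    simp only [eqvGen_iUnion hmono hT]
    constructor
    · rintro ⟨m, hm, M, h⟩; exact ⟨M, m, hm, h⟩
    · rintro ⟨M, m, hm, h⟩; exact ⟨m, hm, M, h⟩
  rw [h1]
  refine eventually_of_mono (P := fun M => ∃ m : ℤ, m ≠ 0 ∧ Relation.EqvGen (G M) x (x + m * n)) ?_
  rintro M M' hM ⟨m, hm, h⟩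
  exact ⟨m, hm, Relation.EqvGen.mono (fun a b h => hmono _ _ hM a b h) _ _ h⟩

/-- the states of the two halves -/
noncomputable def sU (n : ℕ) [NeZero n] (M : ℕ) (ω : BConf n) : ℤ → ℤ :=
  cov (runRows (extRows (jres n M ω).1) M (cap n M))

/-- the states of the two halves -/
noncomputable def sD (n : ℕ) [NeZero n] (M : ℕ) (ω : BConf n) : ℤ → ℤ :=
  cov (runRows (extRows (jres n M ω).2) M (cap n M))

theorem lim_W0 (ω : BConf n) (x : ℤ) :
    ∀ᶠ M in atTop, (NoLoop (sU n M ω) (sD n M ω) (2 * x) ↔ W0 n ω x) := by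
  have h := wind_lim (n := n) (G := fun M a b => FC M (rowsOf n (up n ω)) a b ∨
      FC M (rowsOf n (dn n ω)) a b) (T := fun a b : ℤ =>
      (cylGraph n (up n ω)).Reachable (a, -a) (b, -b) ∨
      (cylGraph n (dn n ω)).Reachable (a, -a) (b, -b)) (by
        rintro M M' hM a b (h | h)
        · exact Or.inl (fc_mono _ _ _ hM _ _ h)
        · exact Or.inr (fc_mono _ _ _ hM _ _ h)) (by
        intro a b
        have h1 := upR_iff ω a b
        have h2 := dnR_iff ω a b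
        unfold upR at h1
        unfold dnR at h2
        rw [h1, h2, exists_or]) x
  filter_upwards [h] with M hM
  unfold W0 KK
  rw [← hM]
  unfold sU sD
  rw [← winds_iff_noLoop]
  refine exists_congr fun m => and_congr_right fun _ => ?_
  have e1 := fc_restr M (up n ω)
  have e2 := fc_restr M (dn n ω)
  have e : BConn M (extRows (jres n M ω).1) (extRows (jres n M ω).2) =
    Relation.EqvGen (fun a b => FC M (extRows (restr n M (up n ω))) a b ∨
      FC M (extRows (restr n M (dn n ω))) a b) := rfl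
  rw [e, e1, e2]

theorem lim_WV (ω : BConf n) (x : ℤ) :
    ∀ᶠ M in atTop, (NoLoop (sU n M ω) (eFun (2 * n) 0 (sD n M ω)) (2 * x) ↔ WV n ω x) := by
  have h := wind_lim (n := n) (G := fun M a b => FC M (rowsOf n (up n ω)) a b ∨
      FC M (rowsOf n (dn n ω)) a b ∨ ∃ k : ℤ, a = k * n ∧ b = k * n + 1) (T := fun a b : ℤ =>
      upR n ω a b ∨ dnR n ω a b ∨ ∃ k : ℤ, a = k * n ∧ b = k * n + 1) (by
        rintro M M' hM a b (h | h | h)
        · exact Or.inl (fc_mono _ _ _ hM _ _ h)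
        · exact Or.inr (Or.inl (fc_mono _ _ _ hM _ _ h))
        · exact Or.inr (Or.inr h)) (by
        intro a b
        rw [upR_iff, dnR_iff]
        constructor
        · rintro (⟨M, h⟩ | ⟨M, h⟩ | h)
          · exact ⟨M, Or.inl h⟩
          · exact ⟨M, Or.inr (Or.inl h)⟩
          · exact ⟨0, Or.inr (Or.inr h)⟩
        · rintro ⟨M, h | h | h⟩
          · exact Or.inl ⟨M, h⟩
          · exact Or.inr (Or.inl ⟨M, h⟩)
          · exact Or.inr (Or.inr h)) x
  filter_upwards [h] with M hM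
  unfold WV ConnV
  rw [← hM]
  unfold sU sD
  rw [← winds_V]
  refine exists_congr fun m => and_congr_right fun _ => ?_
  have e1 := fc_restr M (up n ω)
  have e2 := fc_restr M (dn n ω)
  have e : ConnV n (FC M (extRows (jres n M ω).1)) (FC M (extRows (jres n M ω).2)) =
    Relation.EqvGen (fun a b => FC M (extRows (restr n M (up n ω))) a b ∨
      FC M (extRows (restr n M (dn n ω))) a b ∨ ∃ k : ℤ, a = k * n ∧ b = k * n + 1) := rfl
  rw [e, e1, e2]

theorem lim_WU (ω : BConf n) (x : ℤ) :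
    ∀ᶠ M in atTop, (NoLoop (sU n M ω) (eFun (2 * n) (-1) (sD n M ω)) (2 * x) ↔ WU n ω x) := by
  have h := wind_lim (n := n) (G := fun M a b => FC M (rowsOf n (up n ω)) a b ∨
      (FC M (rowsOf n (dn n ω)) a b ∧ ¬ (n : ℤ) ∣ a ∧ ¬ (n : ℤ) ∣ b)) (T := fun a b : ℤ =>
      upR n ω a b ∨ (dnR n ω a b ∧ ¬ (n : ℤ) ∣ a ∧ ¬ (n : ℤ) ∣ b)) (by
        rintro M M' hM a b (h | ⟨h, h'⟩)
        · exact Or.inl (fc_mono _ _ _ hM _ _ h)
        · exact Or.inr ⟨fc_mono _ _ _ hM _ _ h, h'⟩) (by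
        intro a b
        rw [upR_iff, dnR_iff]
        constructor
        · rintro (⟨M, h⟩ | ⟨⟨M, h⟩, h'⟩)
          · exact ⟨M, Or.inl h⟩
          · exact ⟨M, Or.inr ⟨h, h'⟩⟩
        · rintro ⟨M, h | ⟨h, h'⟩⟩
          · exact Or.inl ⟨M, h⟩
          · exact Or.inr ⟨⟨M, h⟩, h'⟩) x
  filter_upwards [h] with M hM
  unfold WU ConnS
  rw [← hM]
  unfold sU sD
  rw [← winds_S]
  refine exists_congr fun m => and_congr_right fun _ => ?_
  have e1 := fc_restr M (up n ω)
  have e2 := fc_restr M (dn n ω)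
  have e : ConnS n (FC M (extRows (jres n M ω).1)) (FC M (extRows (jres n M ω).2)) =
    Relation.EqvGen (fun a b => FC M (extRows (restr n M (up n ω))) a b ∨
      (FC M (extRows (restr n M (dn n ω))) a b ∧ ¬ (n : ℤ) ∣ a ∧ ¬ (n : ℤ) ∣ b)) := rfl
  rw [e, e1, e2]

theorem lim_WD (ω : BConf n) (x : ℤ) :
    ∀ᶠ M in atTop, (NoLoop (eFun (2 * n) (-1) (sU n M ω)) (sD n M ω) (2 * x) ↔ WD n ω x) := by
  have h := wind_lim (n := n) (G := fun M a b => FC M (rowsOf n (dn n ω)) a b ∨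
      (FC M (rowsOf n (up n ω)) a b ∧ ¬ (n : ℤ) ∣ a ∧ ¬ (n : ℤ) ∣ b)) (T := fun a b : ℤ =>
      dnR n ω a b ∨ (upR n ω a b ∧ ¬ (n : ℤ) ∣ a ∧ ¬ (n : ℤ) ∣ b)) (by
        rintro M M' hM a b (h | ⟨h, h'⟩)
        · exact Or.inl (fc_mono _ _ _ hM _ _ h)
        · exact Or.inr ⟨fc_mono _ _ _ hM _ _ h, h'⟩) (by
        intro a b
        rw [upR_iff, dnR_iff]
        constructor
        · rintro (⟨M, h⟩ | ⟨⟨M, h⟩, h'⟩)
          · exact ⟨M, Or.inl h⟩
          · exact ⟨M, Or.inr ⟨h, h'⟩⟩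
        · rintro ⟨M, h | ⟨h, h'⟩⟩
          · exact Or.inl ⟨M, h⟩
          · exact Or.inr ⟨⟨M, h⟩, h'⟩) x
  filter_upwards [h] with M hM
  unfold WD ConnS
  rw [← hM]
  unfold sU sD
  rw [← winds_S']
  refine exists_congr fun m => and_congr_right fun _ => ?_
  have e1 := fc_restr M (up n ω)
  have e2 := fc_restr M (dn n ω)
  have e : ConnS n (FC M (extRows (jres n M ω).2)) (FC M (extRows (jres n M ω).1)) =
    Relation.EqvGen (fun a b => FC M (extRows (restr n M (dn n ω))) a b ∨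
      (FC M (extRows (restr n M (up n ω))) a b ∧ ¬ (n : ℤ) ∣ a ∧ ¬ (n : ℤ) ∣ b)) := rfl
  rw [e, e1, e2]

open Classical in
/-- **probabilities from the stationary states** -/
theorem prob_of_states {Ψ : (PX (2 * n) → ℝ) →ₗ[ℝ] ℝ}
    (hlim : ∀ f : PX (2 * n) → ℝ, ∀ x, Tendsto (fun M : ℕ => (SX (1 / 2) ^ M) f x) atTop
      (𝓝 (Ψ f))) (Q : (ℤ → ℤ) → (ℤ → ℤ) → Prop) (E : Set (BConf n))
    (hE : ∀ ω, ∀ᶠ M in atTop, (Q (sU n M ω) (sD n M ω) ↔ ω ∈ E)) :
    MeasurableSet E ∧ ((bulkMeasure n) E).toReal =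
      Ψ (fun x : PX (2 * n) => Ψ (fun y : PX (2 * n) => if Q (cov x.1) (cov y.1) then 1 else 0)) := by
  have hmeas : ∀ M, MeasurableSet {ω : BConf n | Q (sU n M ω) (sD n M ω)} := by
    intro M
    have e : {ω : BConf n | Q (sU n M ω) (sD n M ω)} = jres n M ⁻¹'
      {η | Q (cov (runRows (extRows η.1) M (cap n M)))
        (cov (runRows (extRows η.2) M (cap n M)))} := rfl
    rw [e]
    exact measurable_jres n M (Set.toFinite _).measurableSet
  have hmE : MeasurableSet E := measurableSet_of_tendsto_indicator atTop hmeas hE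
  refine ⟨hmE, ?_⟩
  have h1 := tendsto_states n hlim (fun s s' => if Q (cov s) (cov s') then 1 else 0)
  refine tendsto_nhds_unique ?_ h1
  have h2 : ∀ M : ℕ, ∫ ω, (if Q (cov (runRows (extRows (jres n M ω).1) M (cap n M)))
        (cov (runRows (extRows (jres n M ω).2) M (cap n M))) then (1 : ℝ) else 0)
        ∂(bulkMeasure n) = ((bulkMeasure n) {ω : BConf n | Q (sU n M ω) (sD n M ω)}).toReal := by
    intro M
    have h3 : (fun ω => if Q (cov (runRows (extRows (jres n M ω).1) M (cap n M)))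
        (cov (runRows (extRows (jres n M ω).2) M (cap n M))) then (1 : ℝ) else 0) =
        Set.indicator {ω : BConf n | Q (sU n M ω) (sD n M ω)} (fun _ => (1 : ℝ)) := by
      funext ω
      rw [Set.indicator_apply]
      rfl
    rw [h3, integral_indicator_const _ (hmeas M), smul_eq_mul, mul_one, Measure.real]
  simp only [h2]
  have h4 := tendsto_measure_of_tendsto_indicator_of_isFiniteMeasure atTop (bulkMeasure n)
    hmeas hE
  exact (ENNReal.tendsto_toReal (measure_ne_top _ _)).comp h4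

end lim

end Pool.Agent.H63.Four
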