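import Mathlib
import Pool.Agent.H63.Four.PercB
import Pool.Agent.H63.Four.Defs
import Pool.Agent.H63.Bulk.Mc
import Pool.Agent.H63.Bulk.Upper
import Pool.Agent.H51.TA.Asym

set_option autoImplicit false

/-! The two percolation events and the four-leg event of the patterns. -/

open MeasureTheory Filter Topology

namespace Pool.Agent.H63.Four

open Pool.Agent.H65.Perc St
open Pool.Agent.H63.Bulk
open Pool.Agent.H51.TA (eFun Pat e e_t mc mc_rot rot_e loopsAround_finite toPat toPat_t val hom_val2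
  Ph Ph_sol Ph_half psi_nonneg rotInv_rot rot_rotInv sum_val_ne)

/-- adding one edge makes the cluster wind -/
def E2 (n : ℕ) : Set (BConf n) := {ω | WV n ω 0 ∧ ¬ W0 n ω 0 ∧ ¬ W0 n ω 1}

/-- splitting the origin destroys the winding -/
def E1 (n : ℕ) : Set (BConf n) := {ω | W0 n ω 0 ∧ ¬ WU n ω 0 ∧ ¬ WD n ω 0}

/-- the first alternative of the four-leg event, shifted by one strand -/
def Alt1 {L : ℕ} (π π' : Pat L) : Prop :=
  NL π π' 0 ∧ ¬ NL π (e (-1) π') 0 ∧ ¬ NL (e (-1) π) π' 0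

/-- the second alternative of the four-leg event -/
def Alt2 {L : ℕ} (π π' : Pat L) : Prop :=
  NL π (e 0 π') 0 ∧ ¬ NL π π' 0 ∧ ¬ NL π π' 2

theorem nl_iff {L : ℕ} (hL : 0 < L) (π π' : Pat L) (c : ℤ) : NL π π' c ↔ NoLoop π.t π'.t c := by
  rw [noLoop_iff π.inv π'.inv]
  unfold NL mc
  rw [Set.ncard_eq_zero (loopsAround_finite π π' hL c)]

theorem tp {L : ℕ} [NeZero L] (z : PX L) : (toPat z).t = cov z.1 := toPat_t z

section law

variable {n : ℕ} [NeZero n] {Ψ : (PX (2 * n) → ℝ) →ₗ[ℝ] ℝ}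
    (hlim : ∀ f : PX (2 * n) → ℝ, ∀ x, Tendsto (fun M : ℕ => (SX (1 / 2) ^ M) f x) atTop
      (𝓝 (Ψ f)))

include hlim

open Classical in
theorem prob_E2 : MeasurableSet (E2 n) ∧ ((bulkMeasure n) (E2 n)).toReal =
    Ψ (fun x => Ψ (fun y => if Alt2 (toPat x) (toPat y) then 1 else 0)) := by
  have hn : 0 < n := Nat.pos_of_ne_zero (NeZero.ne n)
  have h := prob_of_states hlim (fun τ τ' => NoLoop τ (eFun (2 * n) 0 τ') 0 ∧
    ¬ NoLoop τ τ' 0 ∧ ¬ NoLoop τ τ' 2) (E2 n) ?_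
  · refine ⟨h.1, h.2.trans ?_⟩
    congr 1
    funext x
    congr 1
    funext y
    have e : Alt2 (toPat x) (toPat y) ↔ (NoLoop (cov x.1) (eFun (2 * n) 0 (cov y.1)) 0 ∧
      ¬ NoLoop (cov x.1) (cov y.1) 0 ∧ ¬ NoLoop (cov x.1) (cov y.1) 2) := by
      unfold Alt2
      rw [nl_iff (by omega), nl_iff (by omega), nl_iff (by omega), e_t (by omega),
        tp x, tp y]
    by_cases h' : Alt2 (toPat x) (toPat y)
    · rw [if_pos h', if_pos (e.1 h')]
    · rw [if_neg h', if_neg (fun h => h' (e.2 h))]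
  · intro ω
    filter_upwards [lim_WV ω 0, lim_W0 ω 0, lim_W0 ω 1] with M h1 h2 h3
    rw [mul_zero] at h1 h2
    rw [mul_one] at h3
    rw [h1, h2, h3]
    rfl

open Classical in
theorem prob_E1 : MeasurableSet (E1 n) ∧ ((bulkMeasure n) (E1 n)).toReal =
    Ψ (fun x => Ψ (fun y => if Alt1 (toPat x) (toPat y) then 1 else 0)) := by
  have hn : 0 < n := Nat.pos_of_ne_zero (NeZero.ne n)
  have h := prob_of_states hlim (fun τ τ' => NoLoop τ τ' 0 ∧
    ¬ NoLoop τ (eFun (2 * n) (-1) τ') 0 ∧ ¬ NoLoop (eFun (2 * n) (-1) τ) τ' 0) (E1 n) ?_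
  · refine ⟨h.1, h.2.trans ?_⟩
    congr 1
    funext x
    congr 1
    funext y
    have e : Alt1 (toPat x) (toPat y) ↔ (NoLoop (cov x.1) (cov y.1) 0 ∧
      ¬ NoLoop (cov x.1) (eFun (2 * n) (-1) (cov y.1)) 0 ∧
      ¬ NoLoop (eFun (2 * n) (-1) (cov x.1)) (cov y.1) 0) := by
      unfold Alt1
      rw [nl_iff (by omega), nl_iff (by omega), nl_iff (by omega), e_t (by omega), e_t (by omega),
        tp x, tp y]
    by_cases h' : Alt1 (toPat x) (toPat y)
    · rw [if_pos h', if_pos (e.1 h')]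
    · rw [if_neg h', if_neg (fun h => h' (e.2 h))]
  · intro ω
    filter_upwards [lim_W0 ω 0, lim_WU ω 0, lim_WD ω 0] with M h1 h2 h3
    rw [mul_zero] at h1 h2 h3
    rw [h1, h2, h3]
    rfl

theorem psi_mono2 (x0 : PX (2 * n)) {f g : PX (2 * n) → PX (2 * n) → ℝ}
    (h : ∀ x y, f x y ≤ g x y) :
    Ψ (fun x => Ψ (fun y => f x y)) ≤ Ψ (fun x => Ψ (fun y => g x y)) := by
  have h1 : ∀ x, Ψ (fun y => f x y) ≤ Ψ (fun y => g x y) := by
    intro x
    have h2 := psi_nonneg hlim x0 (fun y => g x y - f x y) (fun y => sub_nonneg.2 (h x y))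
    have e : (fun y => g x y - f x y) = (fun y => g x y) - (fun y => f x y) := rfl
    rw [e, map_sub] at h2
    linarith
  have h2 := psi_nonneg hlim x0 (fun x => Ψ (fun y => g x y) - Ψ (fun y => f x y))
    (fun x => sub_nonneg.2 (h1 x))
  have e : (fun x => Ψ (fun y => g x y) - Ψ (fun y => f x y)) =
    (fun x => Ψ (fun y => g x y)) - (fun x => Ψ (fun y => f x y)) := rfl
  rw [e, map_sub] at h2
  linarith

end law

theorem val_rot (n : ℕ) [NeZero n] (π : Pat (2 * n)) : val n π.rot = val n π := by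
  have h := (Ph_sol n).rot (fun _ => 1 / 2) (fun _ => Set.mem_univ _) π
  have e : ((fun _ : Fin (2 * n) => (1 / 2 : ℂ)) ∘ finRotate (2 * n)) = fun _ => 1 / 2 := rfl
  rw [e, Ph_half, Ph_half] at h
  exact_mod_cast h

/-- rotation as a bijection -/
def rotE (L : ℕ) : Pat L ≃ Pat L where
  toFun := Pat.rot
  invFun := Pat.rotInv
  left_inv := rotInv_rot
  right_inv := rot_rotInv

open Classical in
theorem alt1_rot (n : ℕ) [NeZero n] :
    (∑ π, ∑ π', val n π * val n π' * (if Alt1 π π' then (1 : ℝ) else 0)) =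
    ∑ π, ∑ π', val n π * val n π' * (if (NL π π' 1 ∧ ¬ NL π (e 0 π') 1 ∧ ¬ NL (e 0 π) π' 1)
      then (1 : ℝ) else 0) := by
  rw [← (rotE (2 * n)).sum_comp]
  refine Finset.sum_congr rfl fun π _ => ?_
  rw [← (rotE (2 * n)).sum_comp]
  refine Finset.sum_congr rfl fun π' _ => ?_
  have e1 : (rotE (2 * n)) π = π.rot := rfl
  have e2 : (rotE (2 * n)) π' = π'.rot := rfl
  rw [e1, e2, val_rot, val_rot]
  have e3 : Alt1 π.rot π'.rot ↔ (NL π π' 1 ∧ ¬ NL π (e 0 π') 1 ∧ ¬ NL (e 0 π) π' 1) := by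
    unfold Alt1 NL
    rw [← rot_e, ← rot_e, mc_rot, mc_rot, mc_rot]
    norm_num
  congr 1
  exact if_congr e3 rfl rfl

open Classical in
/-- the four-leg probability of the stationary states -/
noncomputable def F4 (n : ℕ) [NeZero n] : ℝ :=
  (∑ π, ∑ π', val n π * val n π' * (if FourLeg π π' then (1 : ℝ) else 0)) / (∑ π, val n π) ^ 2

theorem E_bounds (n : ℕ) [NeZero n] :
    ((bulkMeasure n) (E1 n)).toReal ≤ F4 n ∧ ((bulkMeasure n) (E2 n)).toReal ≤ F4 n ∧
      F4 n ≤ ((bulkMeasure n) (E1 n)).toReal + ((bulkMeasure n) (E2 n)).toReal := by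
  classical
  obtain ⟨Ψ, hlim, -⟩ := exists_Psi n
  have x0 : PX (2 * n) := ⟨cap n 0, planar_cap n 0⟩
  have h1 := (prob_E1 hlim).2
  have h2 := (prob_E2 hlim).2
  have g1 := hom_val2 n Ψ hlim (fun π π' => if Alt1 π π' then (1 : ℝ) else 0)
  have g1' := hom_val2 n Ψ hlim (fun π π' => if (NL π π' 1 ∧ ¬ NL π (e 0 π') 1 ∧
    ¬ NL (e 0 π) π' 1) then (1 : ℝ) else 0)
  have g3 := hom_val2 n Ψ hlim (fun π π' => if FourLeg π π' then (1 : ℝ) else 0)
  rw [alt1_rot, ← g1'] at g1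
  rw [g1] at h1
  rw [h1, h2]
  unfold F4
  rw [← g3]
  refine ⟨?_, ?_, ?_⟩
  · refine psi_mono2 hlim x0 fun x y => ?_
    by_cases h : (NL (toPat x) (toPat y) 1 ∧ ¬ NL (toPat x) (e 0 (toPat y)) 1 ∧
      ¬ NL (e 0 (toPat x)) (toPat y) 1)
    · rw [if_pos h, if_pos (show FourLeg (toPat x) (toPat y) from Or.inl h)]
    · rw [if_neg h]
      split_ifs <;> norm_num
  · refine psi_mono2 hlim x0 fun x y => ?_
    by_cases h : Alt2 (toPat x) (toPat y)
    · rw [if_pos h, if_pos (show FourLeg (toPat x) (toPat y) from Or.inr h)]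
    · rw [if_neg h]
      split_ifs <;> norm_num
  · have e : ∀ (f g : PX (2 * n) → PX (2 * n) → ℝ), Ψ (fun x => Ψ (fun y => f x y)) +
        Ψ (fun x => Ψ (fun y => g x y)) = Ψ (fun x => Ψ (fun y => f x y + g x y)) := by
      intro f g
      rw [← map_add]
      congr 1
      funext x
      rw [Pi.add_apply, ← map_add]
      rfl
    rw [e]
    refine psi_mono2 hlim x0 fun x y => ?_
    by_cases h : FourLeg (toPat x) (toPat y)
    · rw [if_pos h]
      rcases h with h | h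
      · rw [if_pos h]
        split_ifs <;> norm_num
      · have h' : Alt2 (toPat x) (toPat y) := h
        rw [if_pos h']
        split_ifs <;> norm_num
    · rw [if_neg h]
      split_ifs <;> norm_num

theorem measurable_E1 (n : ℕ) [NeZero n] : MeasurableSet (E1 n) := by
  obtain ⟨Ψ, hlim, -⟩ := exists_Psi n
  exact (prob_E1 hlim).1

theorem measurable_E2 (n : ℕ) [NeZero n] : MeasurableSet (E2 n) := by
  obtain ⟨Ψ, hlim, -⟩ := exists_Psi n
  exact (prob_E2 hlim).1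

end Pool.Agent.H63.Four
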