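import Mathlib
import Pool.Agent.H63.Four.Gr
import Pool.Agent.H63.Four.PercC

set_option autoImplicit false

/-! The second event and pivotal edges. -/

open MeasureTheory Filter Topology

namespace Pool.Agent.H63.Four

open Pool.Agent.H63.Bulk

/-- sets closed under generators -/
theorem eqvGen_closed {α : Type*} {G : α → α → Prop} {S : α → Prop}
    (hS : ∀ a b, G a b → (S a ↔ S b)) {a b : α} (h : Relation.EqvGen G a b) : S a ↔ S b := by
  induction h with
  | rel a b h => exact hS a b h
  | refl a => exact Iff.rfl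
  | symm a b _ ih => exact ih.symm
  | trans a b c _ _ ih1 ih2 => exact ih1.trans ih2

theorem virt {n : ℤ} {K : ℤ → ℤ → Prop} (hr : ∀ a, K a a) (hsy : ∀ a b, K a b → K b a)
    (ht : ∀ a b c, K a b → K b c → K a c)
    (hs : ∀ a b m, K a b → K (a + m * n) (b + m * n))
    (h0 : ∀ m : ℤ, m ≠ 0 → ¬ K 0 (m * n)) (h1 : ∀ m : ℤ, m ≠ 0 → ¬ K 1 (1 + m * n))
    {m0 : ℤ} (hm0 : m0 ≠ 0)
    (hV : Relation.EqvGen (fun a b => K a b ∨ ∃ k : ℤ, a = k * n ∧ b = k * n + 1) 0 (m0 * n)) :
    ¬ K 0 1 ∧ ∃ m : ℤ, m ≠ 0 ∧ K 0 (1 + m * n) := by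
  have h01 : ¬ K 0 1 := by
    intro h
    have key := (eqvGen_closed (S := fun b => K 0 b) ?_ hV).1 (hr 0)
    · exact h0 m0 hm0 key
    · rintro a b (hab | ⟨k, rfl, rfl⟩)
      · exact ⟨fun h' => ht _ _ _ h' hab, fun h' => ht _ _ _ h' (hsy _ _ hab)⟩
      · have h2 := hs 0 1 k h
        rw [zero_add, add_comm (1 : ℤ)] at h2
        exact ⟨fun h' => ht _ _ _ h' h2, fun h' => ht _ _ _ h' (hsy _ _ h2)⟩
  refine ⟨h01, ?_⟩
  by_contra hcon
  push Not at hcon
  have hno : ∀ m : ℤ, ¬ K 0 (1 + m * n) := by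
    intro m
    by_cases hm : m = 0
    · subst hm; rw [zero_mul, add_zero]; exact h01
    · exact hcon m hm
  have key := (eqvGen_closed (S := fun b => K 0 b ∨ K 1 b) ?_ hV).1 (Or.inl (hr 0))
  · rcases key with h | h
    · exact h0 m0 hm0 h
    · have h2 := hs _ _ (-m0) h
      have e : m0 * n + -m0 * n = 0 := by ring
      rw [e] at h2
      exact hno _ (hsy _ _ h2)
  · rintro a b (hab | ⟨k, rfl, rfl⟩)
    · exact ⟨fun h => h.imp (fun h' => ht _ _ _ h' hab) (fun h' => ht _ _ _ h' hab),
        fun h => h.imp (fun h' => ht _ _ _ h' (hsy _ _ hab)) (fun h' => ht _ _ _ h' (hsy _ _ hab))⟩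
    · by_cases hk : k = 0
      · subst hk
        rw [zero_mul, zero_add]
        exact ⟨fun _ => Or.inr (hr 1), fun _ => Or.inl (hr 0)⟩
      · constructor
        · rintro (h | h)
          · exact absurd h (h0 k hk)
          · have h2 := hs _ _ (-k) h
            have e : k * n + -k * n = 0 := by ring
            rw [e] at h2
            exact absurd (hsy _ _ h2) (hno _)
        · rintro (h | h)
          · rw [add_comm] at h
            exact absurd h (hno _)
          · rw [add_comm] at h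
            exact absurd h (h1 k hk)

section det

variable {n : ℕ}

theorem kk_iff_rc {ω : BConf n} {a b : ℤ} : KK n ω a b ↔ Rc n ω (a, -a) (b, -b) :=
  bulk_iff_KK.symm

theorem sh_bd (m x : ℤ) : sh n m (x, -x) = (x + m * n, -(x + m * n)) := by
  refine Prod.ext rfl ?_
  simp only [sh]; ring

theorem W0_iff {ω : BConf n} {x : ℤ} : W0 n ω x ↔ Wd n ω (x, -x) := by
  unfold W0 Wd
  refine exists_congr fun m => and_congr_right fun _ => ?_
  rw [kk_iff_rc, sh_bd]

theorem zero_bd : ((0 : ℤ), -(0 : ℤ)) = (0, 0) := by simp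

theorem kk_shift {ω : BConf n} {a b : ℤ} (h : KK n ω a b) (m : ℤ) :
    KK n ω (a + m * n) (b + m * n) := by
  rw [kk_iff_rc] at h ⊢
  have := h.shift m
  rwa [sh_bd, sh_bd] at this

/-- the edge event, first direction -/
theorem E2_imp {ω : BConf n} (h : ω ∈ E2 n) : ¬ Wd n ω (0, 0) ∧ ¬ Wd n ω (1, -1) ∧
    ¬ Rc n ω (0, 0) (1, -1) ∧ ∃ m : ℤ, m ≠ 0 ∧ Rc n ω (0, 0) (sh n m (1, -1)) := by
  obtain ⟨⟨m0, hm0, hV⟩, h0, h1⟩ := h
  have h0' : ∀ m : ℤ, m ≠ 0 → ¬ KK n ω 0 (m * n) := fun m hm h => h0 ⟨m, hm, by rwa [zero_add]⟩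
  have h1' : ∀ m : ℤ, m ≠ 0 → ¬ KK n ω 1 (1 + m * n) := fun m hm h => h1 ⟨m, hm, h⟩
  have key := virt (n := n) (K := KK n ω) (fun a => Relation.EqvGen.refl _)
    (fun a b h => h.symm _ _) (fun a b c h h' => h.trans _ _ _ h')
    (fun a b m h => kk_shift h m) h0' h1' hm0 ?_
  · obtain ⟨k1, m, hm, k2⟩ := key
    rw [W0_iff] at h0 h1
    refine ⟨by rwa [zero_bd] at h0, h1, ?_, m, hm, ?_⟩
    · intro h
      apply k1
      rw [kk_iff_rc, zero_bd]
      exact h
    · rw [kk_iff_rc, zero_bd, ← sh_bd] at k2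
      exact k2
  · rw [zero_add] at hV
    refine Relation.EqvGen.mono ?_ _ _ hV
    rintro a b (h | h | h)
    · exact Or.inl (Relation.EqvGen.rel _ _ (Or.inl h))
    · exact Or.inl (Relation.EqvGen.rel _ _ (Or.inr h))
    · exact Or.inr h

/-- the edge event, second direction -/
theorem imp_E2 {ω : BConf n} (h0 : ¬ Wd n ω (0, 0))
    (h1 : ∃ m : ℤ, m ≠ 0 ∧ Rc n ω (0, 0) (sh n m (1, -1))) : ω ∈ E2 n := by
  obtain ⟨m, hm, h⟩ := h1
  have h2 : ¬ Wd n ω (1, -1) := by
    intro hw
    apply h0
    refine Wd.of_rc h.symm ?_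
    obtain ⟨m', hm', h'⟩ := hw
    refine ⟨m', hm', ?_⟩
    have := h'.shift m
    rw [sh_sh] at this ⊢
    rwa [add_comm] at this
  refine ⟨⟨m, hm, ?_⟩, ?_, ?_⟩
  · have k1 : KK n ω 0 (1 + m * n) := by
      rw [kk_iff_rc, zero_bd, ← sh_bd]
      exact h
    have k2 : ConnV n (upR n ω) (dnR n ω) 0 (1 + m * n) :=
      Relation.EqvGen.mono (fun a b h => h.elim Or.inl fun h => Or.inr (Or.inl h)) _ _ k1
    have k3 : ConnV n (upR n ω) (dnR n ω) (0 + m * n) (1 + m * n) :=
      Relation.EqvGen.rel _ _ (Or.inr (Or.inr ⟨m, by ring, by ring⟩))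
    exact k2.trans _ _ _ (k3.symm _ _)
  · rw [W0_iff, zero_bd]
    exact h0
  · rw [W0_iff]
    exact h2

/-- winding does not depend on the period -/
theorem wd_sh {ω : BConf n} {u : ℤ × ℤ} (k : ℤ) (h : Wd n ω u) : Wd n ω (sh n k u) := by
  obtain ⟨m', hm', h'⟩ := h
  refine ⟨m', hm', ?_⟩
  have := h'.shift k
  rw [sh_sh] at this ⊢
  rwa [add_comm] at this

theorem sh_inj {m k : ℤ} (hn : n ≠ 0) {u : ℤ × ℤ} (h : sh n m u = sh n k u) : m = k := by
  have h1 := congrArg Prod.fst h
  simp only [sh] at h1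
  have h2 : m * (n : ℤ) = k * n := by linarith
  exact mul_right_cancel₀ (by exact_mod_cast hn) h2

theorem lev_sh (m : ℤ) (u : ℤ × ℤ) : (sh n m u).1 + (sh n m u).2 = u.1 + u.2 := by
  simp only [sh]; ring

/-- both edges at the common upper neighbour are considered: pivotality after at most three
changes -/
theorem E2_cases {ω : BConf n} (hn : n ≠ 0) (h : ω ∈ E2 n) :
    Piv n (0, 0) true ω ∨ Piv n (1, -1) false ω ∨
      Piv n (0, 0) true (upd n (upd n (upd n ω (ix n (1, 0) true) false) (ix n (1, 0) false) false)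
        (ix n (1, -1) false) true) := by
  obtain ⟨w0, w1, h01, m, hm, hR⟩ := E2_imp h
  have hA1 : nb (0, 0) true = (1, 0) := by rw [nb_true]; rfl
  have hA2 : nb (1, -1) false = (1, 0) := by rw [nb_false]; rfl
  set a := ix n (0, 0) true with ha
  set f := ix n (1, -1) false with hf
  -- consequences of a connection of `(1, 0)` with a translate of `(1, -1)` when both are closed
  have key : ω a = false → ω f = false → (∃ k : ℤ, Rc n ω (1, 0) (sh n k (1, -1))) →
      Piv n (0, 0) true ω ∨ Piv n (1, -1) false ω := by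
    rintro hωa hωf ⟨k, hk⟩
    by_cases hk0 : k = 0
    · left
      subst hk0
      rw [sh_zero] at hk
      unfold Piv
      rw [← ha, upd_self hωa, hA1]
      refine ⟨fun h => h01 (h.trans hk), ⟨m, hm, hR.trans (hk.symm.shift m)⟩, w0⟩
    · right
      unfold Piv
      rw [← hf, upd_self hωf, hA2]
      refine ⟨?_, ⟨-k, by omega, ?_⟩, w1⟩
      · intro h
        exact w1 ⟨k, hk0, h.trans hk⟩
      · have := hk.symm.shift (-k)
        rwa [sh_neg] at this
  by_cases hωa : ω a = true
  · -- `a` open, hence `f` closed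
    have r1 : Rc n ω (0, 0) (1, 0) := by rw [← hA1]; exact Rc.edge hωa
    have hωf : ω f = false := by
      by_contra hf'
      have hf'' : ω f = true := by simpa using hf'
      have r2 : Rc n ω (1, -1) (1, 0) := by rw [← hA2]; exact Rc.edge hf''
      exact h01 (r1.trans r2.symm)
    right; left
    unfold Piv
    rw [← hf, upd_self hωf, hA2]
    refine ⟨fun h => h01 (r1.trans h.symm), ⟨-m, by omega, ?_⟩, w1⟩
    have := (hR.symm.trans r1).shift (-m)
    rwa [sh_neg] at this
  have hωa' : ω a = false := by simpa using hωa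
  by_cases hωf : ω f = true
  · -- `f` open, `a` closed
    have r2 : Rc n ω (1, -1) (1, 0) := by rw [← hA2]; exact Rc.edge hωf
    left
    unfold Piv
    rw [← ha, upd_self hωa', hA1]
    exact ⟨fun h => h01 (h.trans r2.symm), ⟨m, hm, hR.trans (r2.shift m)⟩, w0⟩
  have hωf' : ω f = false := by simpa using hωf
  by_cases hX : ∃ k : ℤ, Rc n ω (1, 0) (sh n k (1, -1))
  · rcases key hωa' hωf' hX with h | h
    · exact Or.inl h
    · exact Or.inr (Or.inl h)
  right; right
  have hX1 : ∀ k : ℤ, ¬ Rc n ω (1, 0) (sh n k (1, -1)) := fun k h => hX ⟨k, h⟩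
  have hX0 : ∀ k : ℤ, ¬ Rc n ω (0, 0) (sh n k (1, 0)) := by
    intro k h
    apply hX1 (m - k)
    have := (h.symm.trans hR).shift (-k)
    rw [sh_neg, sh_sh] at this
    rwa [sub_eq_neg_add]
  -- the four indices
  set p := ix n (1, 0) true with hp
  set q := ix n (1, 0) false with hq
  have haf : a ≠ f := by
    intro h; have := congrArg (fun z => z.2.2) h; simp [ha, hf, ix] at this
  have hap : a ≠ p := by
    intro h; have := congrArg (fun z => z.1) h; simp [ha, hp, ix] at this
  have haq : a ≠ q := by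
    intro h; have := congrArg (fun z => z.1) h; simp [ha, hq, ix] at this
  have hfp : f ≠ p := by
    intro h; have := congrArg (fun z => z.1) h; simp [hf, hp, ix] at this
  have hfq : f ≠ q := by
    intro h; have := congrArg (fun z => z.1) h; simp [hf, hq, ix] at this
  have hpq : p ≠ q := by
    intro h; have := congrArg (fun z => z.2.2) h; simp [hp, hq, ix] at this
  set ω' := upd n (upd n (upd n ω p false) q false) f true with hω'
  have vf : ω' f = true := by rw [hω', upd_same]
  have va : ω' a = false := by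
    rw [hω', upd_ne _ _ haf, upd_ne _ _ haq, upd_ne _ _ hap]; exact hωa'
  have vp : ω' p = false := by
    rw [hω', upd_ne _ _ hfp.symm, upd_ne _ _ hpq, upd_same]
  have vq : ω' q = false := by
    rw [hω', upd_ne _ _ hfq.symm, upd_same]
  have vo : ∀ i, i ≠ f → i ≠ p → i ≠ q → ω' i = ω i := by
    intro i h1 h2 h3
    rw [hω', upd_ne _ _ h1, upd_ne _ _ h3, upd_ne _ _ h2]
  -- edges at translates of `(1, 0)`
  have up1 : ∀ (k : ℤ) (d : Bool), ω' (ix n (sh n k (1, 0)) d) = false := by
    intro k d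
    rw [ix_sh]
    cases d
    · exact vq
    · exact vp
  have lo1 : ∀ (k : ℤ) (u : ℤ × ℤ) (d : Bool), nb u d = sh n k (1, 0) →
      (ix n u d = a ∧ u = sh n k (0, 0)) ∨ (ix n u d = f ∧ u = sh n k (1, -1)) := by
    intro k u d h
    cases d
    · right
      have : u = sh n k (1, -1) := by
        rw [nb_false] at h
        have e1 := congrArg Prod.fst h
        have e2 := congrArg Prod.snd h
        simp only [sh] at e1 e2
        refine Prod.ext ?_ ?_
        · simp only [sh]; exact e1
        · simp only [sh]; linarith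
      exact ⟨by rw [this, ix_sh], this⟩
    · left
      have : u = sh n k (0, 0) := by
        rw [nb_true] at h
        have e1 := congrArg Prod.fst h
        have e2 := congrArg Prod.snd h
        simp only [sh] at e1 e2
        refine Prod.ext ?_ ?_
        · simp only [sh]; linarith
        · simp only [sh]; exact e2
      exact ⟨by rw [this, ix_sh], this⟩
  have fe : ∀ (u : ℤ × ℤ) (d : Bool), ix n u d = f → d = false ∧ ∃ k : ℤ, u = sh n k (1, -1) := by
    intro u d h
    obtain ⟨h1, k, h2⟩ := ix_eq (hf ▸ h.symm : ix n (1, -1) false = ix n u d)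
    exact ⟨h1.symm, k, h2⟩
  -- the new cluster
  have hS : ∀ v, Rc n ω' (0, 0) v → (Rc n ω (0, 0) v ∨ v = sh n m (1, 0)) := by
    intro v hv
    refine (Rc.closed (S := fun v => Rc n ω (0, 0) v ∨ v = sh n m (1, 0)) ?_ hv).1
      (Or.inl (Rc.refl _ _))
    intro u d hu
    by_cases hif : ix n u d = f
    · obtain ⟨rfl, k, rfl⟩ := fe u d hif
      rw [← sh_nb, hA2]
      constructor
      · rintro (h | h)
        · have : k = m := by
            by_contra hkm
            apply w1
            have h3 := (hR.symm.trans h).shift (-m)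
            rw [sh_neg, sh_sh] at h3
            exact ⟨-m + k, by omega, h3⟩
          right; rw [this]
        · exfalso
          have h3 := lev_sh (n := n) k (1, -1)
          rw [h, lev_sh] at h3
          norm_num at h3
      · rintro (h | h)
        · exact absurd h (hX0 k)
        · have := sh_inj hn h
          subst this
          exact Or.inl hR
    · have hip : ix n u d ≠ p := by rintro h; rw [h, vp] at hu; exact absurd hu (by decide)
      have hiq : ix n u d ≠ q := by rintro h; rw [h, vq] at hu; exact absurd hu (by decide)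
      have hu' : ω (ix n u d) = true := by rw [← vo _ hif hip hiq]; exact hu
      have e := Rc.edge hu'
      constructor
      · rintro (h | h)
        · exact Or.inl (h.trans e)
        · exfalso
          rw [h, up1] at hu
          exact absurd hu (by decide)
      · rintro (h | h)
        · exact Or.inl (h.trans e.symm)
        · exfalso
          rcases lo1 m u d h with ⟨h1, _⟩ | ⟨h1, _⟩
          · rw [h1, va] at hu
            exact absurd hu (by decide)
          · exact hif h1
  have hT : ∀ v, Rc n ω (0, 0) v → (Rc n ω (0, 0) v ∧ Rc n ω' (0, 0) v) := by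
    intro v hv
    refine (Rc.closed (S := fun v => Rc n ω (0, 0) v ∧ Rc n ω' (0, 0) v) ?_ hv).1
      ⟨Rc.refl _ _, Rc.refl _ _⟩
    intro u d hu
    have e := Rc.edge hu
    have hno : ∀ k : ℤ, Rc n ω (0, 0) u → u ≠ sh n k (1, 0) := by
      intro k h1 h2
      rw [h2] at h1
      exact hX0 k h1
    have hu' : Rc n ω (0, 0) u → ω' (ix n u d) = true := by
      intro h1
      by_cases hif : ix n u d = f
      · rw [hif]; exact vf
      rw [vo _ hif ?_ ?_]
      · exact hu
      · intro h2
        obtain ⟨_, k, h3⟩ := ix_eq (hp ▸ h2.symm : ix n (1, 0) true = ix n u d)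
        exact hno k h1 h3
      · intro h2
        obtain ⟨_, k, h3⟩ := ix_eq (hq ▸ h2.symm : ix n (1, 0) false = ix n u d)
        exact hno k h1 h3
    constructor
    · rintro ⟨h1, h2⟩
      exact ⟨h1.trans e, h2.trans (Rc.edge (hu' h1))⟩
    · rintro ⟨h1, h2⟩
      have h3 := h1.trans e.symm
      exact ⟨h3, h2.trans (Rc.edge (hu' h3)).symm⟩
  unfold Piv
  rw [← ha, upd_self va, hA1]
  refine ⟨?_, ⟨m, hm, ?_⟩, ?_⟩
  · intro h
    rcases hS _ h with h | h
    · exact hX0 0 (by rwa [sh_zero])
    · apply hm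
      refine (sh_inj hn (u := (1, 0)) ?_).symm
      rw [sh_zero]
      exact h
  · have h1 := (hT _ hR).2
    have h2 : Rc n ω' (1, -1) (1, 0) := by rw [← hA2]; exact Rc.edge vf
    exact h1.trans (h2.shift m)
  · rintro ⟨k, hk, h⟩
    rcases hS _ h with h | h
    · exact w0 ⟨k, hk, h⟩
    · have h3 := lev_sh (n := n) k (0, 0)
      rw [h, lev_sh] at h3
      norm_num at h3

end det

end Pool.Agent.H63.Four
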