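import Mathlib
import Pool.Agent.H63.Four.PercD

set_option autoImplicit false

/-! The first event and pivotal edges. -/

open MeasureTheory Filter Topology

namespace Pool.Agent.H63.Four

open Pool.Agent.H63.Bulk
open Pool.Agent.H65.Perc (cylGraph CConf)

section det

variable {n : ℕ}

/-- connection through the upper half -/
def UR (n : ℕ) (ω : BConf n) (u v : ℤ × ℤ) : Prop := (cylGraph n (up n ω)).Reachable u v

/-- connection through the lower half -/
def DR (n : ℕ) (ω : BConf n) (u v : ℤ × ℤ) : Prop :=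
  (cylGraph n (dn n ω)).Reachable (rho u) (rho v)

theorem upR_eq {ω : BConf n} {x y : ℤ} : upR n ω x y ↔ UR n ω (x, -x) (y, -y) := Iff.rfl

theorem dnR_eq {ω : BConf n} {x y : ℤ} : dnR n ω x y ↔ DR n ω (x, -x) (y, -y) := by
  unfold dnR DR
  rw [rho_bdry, rho_bdry]

theorem UR.refl (ω : BConf n) (u : ℤ × ℤ) : UR n ω u u := SimpleGraph.Reachable.refl _
theorem UR.symm {ω : BConf n} {u v : ℤ × ℤ} (h : UR n ω u v) : UR n ω v u :=
  SimpleGraph.Reachable.symm h
theorem UR.trans {ω : BConf n} {u v w : ℤ × ℤ} (h : UR n ω u v) (h' : UR n ω v w) : UR n ω u w :=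
  SimpleGraph.Reachable.trans h h'
theorem DR.refl (ω : BConf n) (u : ℤ × ℤ) : DR n ω u u := SimpleGraph.Reachable.refl _
theorem DR.symm {ω : BConf n} {u v : ℤ × ℤ} (h : DR n ω u v) : DR n ω v u :=
  SimpleGraph.Reachable.symm h
theorem DR.trans {ω : BConf n} {u v w : ℤ × ℤ} (h : DR n ω u v) (h' : DR n ω v w) : DR n ω u w :=
  SimpleGraph.Reachable.trans h h'

theorem be_iff {ω : BConf n} {u v : ℤ × ℤ} :
    BE n ω u v ↔ ∃ d, v = nb u d ∧ ω (ix n u d) = true := by
  unfold BE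
  constructor
  · rintro (⟨h1, h2⟩ | ⟨h1, h2⟩)
    · exact ⟨true, by rw [nb_true]; exact h1, h2⟩
    · exact ⟨false, by rw [nb_false]; exact h1, h2⟩
  · rintro ⟨d, h1, h2⟩
    cases d
    · exact Or.inr ⟨by rw [nb_false] at h1; exact h1, h2⟩
    · exact Or.inl ⟨by rw [nb_true] at h1; exact h1, h2⟩

theorem nb_ne (u : ℤ × ℤ) (d : Bool) : nb u d ≠ u := by
  intro h
  cases d
  · rw [nb_false] at h
    have := congrArg Prod.snd h
    simp at this
  · rw [nb_true] at h
    have := congrArg Prod.fst h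
    simp at this

theorem lev_nb (u : ℤ × ℤ) (d : Bool) : (nb u d).1 + (nb u d).2 = u.1 + u.2 + 1 := by
  cases d
  · rw [nb_false]; simp only; ring
  · rw [nb_true]; simp only; ring

theorem rho_inj {u v : ℤ × ℤ} (h : rho u = rho v) : u = v := by
  rw [← rho_rho u, h, rho_rho]

theorem lev_rho (u : ℤ × ℤ) : (rho u).1 + (rho u).2 = -(u.1 + u.2) := by
  unfold rho; simp only; ring

theorem UR.edge {ω : BConf n} {u : ℤ × ℤ} {d : Bool} (h0 : 0 ≤ u.1 + u.2)
    (h : ω (ix n u d) = true) : UR n ω u (nb u d) := by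
  refine SimpleGraph.Adj.reachable ?_
  rw [cyl_adj_iff]
  refine ⟨(nb_ne u d).symm, Or.inl ?_⟩
  rw [CE_up]
  exact ⟨h0, be_iff.2 ⟨d, rfl, h⟩⟩

theorem DR.edge {ω : BConf n} {u : ℤ × ℤ} {d : Bool} (h0 : u.1 + u.2 < 0)
    (h : ω (ix n u d) = true) : DR n ω u (nb u d) := by
  refine SimpleGraph.Adj.reachable ?_
  rw [cyl_adj_iff]
  refine ⟨fun h => nb_ne u d (rho_inj h).symm, Or.inr ?_⟩
  rw [CE_dn, rho_rho, rho_rho, lev_rho, lev_nb]
  exact ⟨by omega, be_iff.2 ⟨d, rfl, h⟩⟩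

theorem UR.closed {ω : BConf n} {S : ℤ × ℤ → Prop}
    (hS : ∀ u d, 0 ≤ u.1 + u.2 → ω (ix n u d) = true → (S u ↔ S (nb u d))) {u v : ℤ × ℤ}
    (h : UR n ω u v) : S u ↔ S v := by
  unfold UR at h
  rw [SimpleGraph.reachable_iff_reflTransGen] at h
  induction h with
  | refl => exact Iff.rfl
  | tail _ h ih =>
    refine ih.trans ?_
    rw [cyl_adj_iff] at h
    rcases h.2 with h | h
    · rw [CE_up] at h
      obtain ⟨h0, h⟩ := h
      obtain ⟨d, rfl, h2⟩ := be_iff.1 h
      exact hS _ d h0 h2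
    · rw [CE_up] at h
      obtain ⟨h0, h⟩ := h
      obtain ⟨d, rfl, h2⟩ := be_iff.1 h
      exact (hS _ d h0 h2).symm

theorem DR.closed {ω : BConf n} {S : ℤ × ℤ → Prop}
    (hS : ∀ u d, u.1 + u.2 < 0 → ω (ix n u d) = true → (S u ↔ S (nb u d))) {u v : ℤ × ℤ}
    (h : DR n ω u v) : S u ↔ S v := by
  unfold DR at h
  have key : ∀ a b : ℤ × ℤ, (cylGraph n (dn n ω)).Reachable a b → (S (rho a) ↔ S (rho b)) := by
    intro a b h
    rw [SimpleGraph.reachable_iff_reflTransGen] at h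
    induction h with
    | refl => exact Iff.rfl
    | @tail b c _ h ih =>
      refine ih.trans ?_
      rw [cyl_adj_iff] at h
      rcases h.2 with h | h
      · rw [CE_dn] at h
        obtain ⟨h0, h⟩ := h
        obtain ⟨d, h1, h2⟩ := be_iff.1 h
        have h3 : (rho c).1 + (rho c).2 < 0 := by
          have e1 := lev_nb (rho c) d
          rw [← h1, lev_rho] at e1
          omega
        rw [h1]
        exact (hS _ d h3 h2).symm
      · rw [CE_dn] at h
        obtain ⟨h0, h⟩ := h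
        obtain ⟨d, h1, h2⟩ := be_iff.1 h
        have h3 : (rho b).1 + (rho b).2 < 0 := by
          have e1 := lev_nb (rho b) d
          rw [← h1, lev_rho] at e1
          omega
        rw [h1]
        exact hS _ d h3 h2
  have := key _ _ h
  rwa [rho_rho, rho_rho] at this

theorem UR.mono {ω ω' : BConf n} (h : ∀ i, ω i = true → ω' i = true) {u v : ℤ × ℤ}
    (h' : UR n ω u v) : UR n ω' u v := by
  have := (UR.closed (S := fun w => UR n ω' u w) (ω := ω) ?_ h').1 (UR.refl _ _)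
  · exact this
  · intro w d h0 hw
    have h1 : UR n ω' w (nb w d) := UR.edge h0 (h _ hw)
    exact ⟨fun h => h.trans h1, fun h => h.trans h1.symm⟩

theorem DR.mono {ω ω' : BConf n} (h : ∀ i, ω i = true → ω' i = true) {u v : ℤ × ℤ}
    (h' : DR n ω u v) : DR n ω' u v := by
  have := (DR.closed (S := fun w => DR n ω' u w) (ω := ω) ?_ h').1 (DR.refl _ _)
  · exact this
  · intro w d h0 hw
    have h1 : DR n ω' w (nb w d) := DR.edge h0 (h _ hw)
    exact ⟨fun h => h.trans h1, fun h => h.trans h1.symm⟩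

/-! ### from the vertex event to pivotal edges -/

theorem dvd_sh {x : ℤ} (h : (n : ℤ) ∣ x) : ∃ k : ℤ, (x, -x) = sh n k (0, 0) := by
  obtain ⟨k, rfl⟩ := h
  exact ⟨k, by simp [sh, mul_comm]⟩

theorem sh_dvd {x k : ℤ} (h : (x, -x) = sh n k (0, 0)) : (n : ℤ) ∣ x := by
  have := congrArg Prod.fst h
  simp only [sh] at this
  exact ⟨k, by linarith⟩

theorem sh_zero_bd (k : ℤ) : sh n k (0, 0) = (k * n, -(k * n)) := by
  simp [sh]

/-- a vertex without upper edges is isolated in the upper half -/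
theorem upR_iso {ω : BConf n} (hω : ∀ d, ω (ix n (0, 0) d) = false) {x y : ℤ}
    (h : upR n ω x y) (hx : (n : ℤ) ∣ x) : x = y := by
  obtain ⟨k, hk⟩ := dvd_sh hx
  rw [upR_eq] at h
  have h1 := (UR.closed (S := fun v => v = sh n k (0, 0)) ?_ h).1 hk
  · rw [← hk] at h1
    exact (congrArg Prod.fst h1).symm
  · intro u d h0 hu
    constructor
    · rintro rfl
      rw [ix_sh, hω] at hu
      exact absurd hu (by decide)
    · intro h1
      exfalso
      have h2 := lev_nb u d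
      rw [h1, lev_sh] at h2
      simp only at h2
      omega

/-- both upper edges at the origin are closed -/
def cl2 (n : ℕ) (ω : BConf n) : BConf n :=
  upd n (upd n ω (ix n (0, 0) true) false) (ix n (0, 0) false) false

theorem ix_ne_d (u v : ℤ × ℤ) : ix n u true ≠ ix n v false := by
  intro h
  have := congrArg (fun z => z.2.2) h
  simp [ix] at this

theorem cl2_zero (ω : BConf n) (d : Bool) : cl2 n ω (ix n (0, 0) d) = false := by
  unfold cl2
  cases d
  · rw [upd_same]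
  · rw [upd_ne _ _ (ix_ne_d _ _), upd_same]

theorem cl2_le {ω : BConf n} (i : ℤ × ZMod n × Bool) (h : cl2 n ω i = true) : ω i = true :=
  upd_false_le _ (upd_false_le _ h)

theorem cl2_of {ω : BConf n} {i : ℤ × ZMod n × Bool} (h : ∀ d, i ≠ ix n (0, 0) d) :
    cl2 n ω i = ω i := by
  unfold cl2
  rw [upd_ne _ _ (h false), upd_ne _ _ (h true)]

theorem sh_ne_lev {u v : ℤ × ℤ} {k : ℤ} (h : u.1 + u.2 ≠ v.1 + v.2) : u ≠ sh n k v := by
  rintro rfl
  exact h (lev_sh k v)

theorem U_lemma {ω : BConf n} {d d' : Bool} (h : ω (ix n (0, 0) d) = true)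
    (h' : ω (ix n (0, 0) d') = true) {k : ℤ}
    (hR : Rc n (cl2 n ω) (nb (0, 0) d) (sh n k (nb (0, 0) d'))) :
    ConnS n (upR n ω) (dnR n ω) 0 (k * n) := by
  set CS := ConnS n (upR n ω) (dnR n ω) with hCS
  have gU : ∀ {x y z : ℤ}, CS x y → upR n ω y z → CS x z := fun h1 h2 =>
    h1.trans _ _ _ (Relation.EqvGen.rel _ _ (Or.inl h2))
  have gD : ∀ {x y z : ℤ}, CS x y → dnR n ω y z → ¬ (n : ℤ) ∣ y → ¬ (n : ℤ) ∣ z → CS x z :=
    fun h1 h2 h3 h4 => h1.trans _ _ _ (Relation.EqvGen.rel _ _ (Or.inr ⟨h2, h3, h4⟩))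
  have key := (Rc.closed (S := fun v => (0 ≤ v.1 + v.2 → (∀ k, v ≠ sh n k (0, 0)) →
      ∃ x, CS 0 x ∧ UR n ω (x, -x) v) ∧ ((v.1 + v.2 < 0 ∨ ∃ k, v = sh n k (0, 0)) →
      ∃ x, ¬ (n : ℤ) ∣ x ∧ CS 0 x ∧ DR n ω (x, -x) v)) ?_ hR).1 ?_
  · have h1 : ∀ k', sh n k (nb (0, 0) d') ≠ sh n k' (0, 0) := by
      intro k'
      apply sh_ne_lev
      rw [lev_sh, lev_nb]
      norm_num
    obtain ⟨x, hx1, hx2⟩ := key.1 (by rw [lev_sh, lev_nb]; norm_num) h1
    have h2 : UR n ω (sh n k (0, 0)) (sh n k (nb (0, 0) d')) := by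
      rw [sh_nb]
      exact UR.edge (by rw [lev_sh]; norm_num) (by rw [ix_sh]; exact h')
    have h3 := hx2.trans h2.symm
    rw [sh_zero_bd] at h3
    exact gU hx1 h3
  · intro u e hu
    have hu' := cl2_le _ hu
    rcases lt_trichotomy (u.1 + u.2) (-1) with hlt | heq | hgt
    · -- both below
      have h1 : (nb u e).1 + (nb u e).2 < 0 := by rw [lev_nb]; omega
      have h2 : u.1 + u.2 < 0 := by omega
      have hE := DR.edge h2 hu'
      constructor
      · rintro ⟨-, h3⟩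
        refine ⟨fun h4 => absurd h1 (not_lt.2 h4), fun _ => ?_⟩
        obtain ⟨x, hx0, hx1, hx2⟩ := h3 (Or.inl h2)
        exact ⟨x, hx0, hx1, hx2.trans hE⟩
      · rintro ⟨-, h3⟩
        refine ⟨fun h4 => absurd h2 (not_lt.2 h4), fun _ => ?_⟩
        obtain ⟨x, hx0, hx1, hx2⟩ := h3 (Or.inl h1)
        exact ⟨x, hx0, hx1, hx2.trans hE.symm⟩
    · have h1 : (nb u e).1 + (nb u e).2 = 0 := by rw [lev_nb]; omega
      have h2 : u.1 + u.2 < 0 := by omega
      have hE := DR.edge h2 hu'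
      by_cases hsp : ∃ k, nb u e = sh n k (0, 0)
      · constructor
        · rintro ⟨-, h3⟩
          refine ⟨fun _ h4 => absurd hsp (by push Not; exact h4), fun _ => ?_⟩
          obtain ⟨x, hx0, hx1, hx2⟩ := h3 (Or.inl h2)
          exact ⟨x, hx0, hx1, hx2.trans hE⟩
        · rintro ⟨-, h3⟩
          refine ⟨fun h4 => absurd h2 (not_lt.2 h4), fun _ => ?_⟩
          obtain ⟨x, hx0, hx1, hx2⟩ := h3 (Or.inr hsp)
          exact ⟨x, hx0, hx1, hx2.trans hE.symm⟩
      · have hbd : nb u e = ((nb u e).1, -(nb u e).1) := Prod.ext rfl (by simp only; omega)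
        have hnd : ¬ (n : ℤ) ∣ (nb u e).1 := by
          intro h3
          apply hsp
          obtain ⟨k, hk⟩ := dvd_sh h3
          exact ⟨k, hbd.trans hk⟩
        constructor
        · rintro ⟨-, h3⟩
          refine ⟨fun _ _ => ?_, ?_⟩
          · obtain ⟨x, hx0, hx1, hx2⟩ := h3 (Or.inl h2)
            have h4 := hx2.trans hE
            rw [hbd] at h4
            refine ⟨(nb u e).1, gD hx1 (dnR_eq.2 h4) hx0 hnd, ?_⟩
            rw [← hbd]
            exact UR.refl _ _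
          · rintro (h4 | h4)
            · omega
            · exact absurd h4 hsp
        · rintro ⟨h3, -⟩
          refine ⟨fun h4 => absurd h2 (not_lt.2 h4), fun _ => ?_⟩
          obtain ⟨x, hx1, hx2⟩ := h3 (by omega) (by push Not at hsp; exact hsp)
          rw [hbd] at hx2
          refine ⟨(nb u e).1, hnd, gU hx1 hx2, ?_⟩
          rw [← hbd]
          exact hE.symm
    · -- both above
      have h2 : 0 ≤ u.1 + u.2 := by omega
      have h1 : 0 ≤ (nb u e).1 + (nb u e).2 := by rw [lev_nb]; omega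
      have hE := UR.edge h2 hu'
      have hs1 : ∀ k, u ≠ sh n k (0, 0) := by
        rintro k rfl
        rw [ix_sh, cl2_zero] at hu
        exact absurd hu (by decide)
      have hs2 : ∀ k, nb u e ≠ sh n k (0, 0) := by
        intro k
        apply sh_ne_lev
        rw [lev_nb]
        simp only
        omega
      constructor
      · rintro ⟨h3, -⟩
        refine ⟨fun _ _ => ?_, ?_⟩
        · obtain ⟨x, hx1, hx2⟩ := h3 h2 hs1
          exact ⟨x, hx1, hx2.trans hE⟩
        · rintro (h4 | ⟨k, h4⟩)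
          · omega
          · exact absurd h4 (hs2 k)
      · rintro ⟨h3, -⟩
        refine ⟨fun _ _ => ?_, ?_⟩
        · obtain ⟨x, hx1, hx2⟩ := h3 h1 hs2
          exact ⟨x, hx1, hx2.trans hE.symm⟩
        · rintro (h4 | ⟨k, h4⟩)
          · omega
          · exact absurd h4 (hs1 k)
  · refine ⟨fun _ _ => ⟨0, Relation.EqvGen.refl _, ?_⟩, ?_⟩
    · rw [zero_bd]
      exact UR.edge (by norm_num) h
    · rintro (h4 | ⟨k', h4⟩)
      · rw [lev_nb] at h4
        norm_num at h4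
      · exfalso
        refine sh_ne_lev (n := n) (k := k') ?_ h4
        rw [lev_nb]
        norm_num

theorem rc_of_upR {ω : BConf n} {x y : ℤ} (h : upR n ω x y) : Rc n ω (x, -x) (y, -y) :=
  up_bulk h

theorem E1_imp {ω : BConf n} (h : ω ∈ E1 n) :
    ∃ d, Piv n (0, 0) d (cl2 n ω) := by
  obtain ⟨⟨m, hm, hR⟩, hU, hD⟩ := h
  rw [kk_iff_rc, ← sh_bd, zero_bd] at hR
  -- the origin does not wind in `cl2`
  have hw : ¬ Wd n (cl2 n ω) (0, 0) := by
    rintro ⟨k, hk, h⟩
    apply hD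
    refine ⟨k, hk, ?_⟩
    have h1 : KK n (cl2 n ω) 0 (0 + k * n) := by
      rw [kk_iff_rc, ← sh_bd, zero_bd]
      exact h
    refine eqvGen_bind ?_ h1
    rintro x y (h2 | h2)
    · by_cases hxy : x = y
      · rw [hxy]; exact Relation.EqvGen.refl _
      have h2' : upR n (cl2 n ω) x y := h2
      have h3 : ¬ (n : ℤ) ∣ x := fun hx => hxy (upR_iso (cl2_zero ω) h2' hx)
      have h4 : ¬ (n : ℤ) ∣ y := fun hy => hxy (upR_iso (cl2_zero ω)
        (show upR n (cl2 n ω) y x from SimpleGraph.Reachable.symm h2') hy).symm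
      exact Relation.EqvGen.rel _ _ (Or.inr ⟨UR.mono cl2_le h2', h3, h4⟩)
    · have h2' : dnR n (cl2 n ω) x y := h2
      rw [dnR_eq] at h2'
      exact Relation.EqvGen.rel _ _ (Or.inl (dnR_eq.2 (DR.mono cl2_le h2')))
  by_contra hcon
  push Not at hcon
  have hself : ∀ d, upd n (cl2 n ω) (ix n (0, 0) d) false = cl2 n ω := fun d =>
    upd_self (cl2_zero ω d)
  have hP : ∀ d, ∀ k : ℤ, k ≠ 0 → Rc n (cl2 n ω) (0, 0) (sh n k (nb (0, 0) d)) →
      Rc n (cl2 n ω) (0, 0) (nb (0, 0) d) := by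
    intro d k hk h1
    by_contra h2
    apply hcon d
    unfold Piv
    rw [hself d]
    exact ⟨h2, ⟨k, hk, h1⟩, hw⟩
  have hP' : ∀ d, ∀ k : ℤ, k ≠ 0 → ¬ Rc n (cl2 n ω) (0, 0) (sh n k (nb (0, 0) d)) := by
    intro d k hk h1
    have h2 := hP d k hk h1
    exact hw ⟨k, hk, h1.trans (h2.symm.shift k)⟩
  have hUno : ∀ d d' k, k ≠ 0 → ω (ix n (0, 0) d) = true → ω (ix n (0, 0) d') = true →
      ¬ Rc n (cl2 n ω) (nb (0, 0) d) (sh n k (nb (0, 0) d')) := by
    intro d d' k hk h1 h2 h3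
    apply hU
    exact ⟨k, hk, by rw [zero_add]; exact U_lemma h1 h2 h3⟩
  have key := (Rc.closed (S := fun v => Rc n (cl2 n ω) (0, 0) v ∨
    ∃ d, ω (ix n (0, 0) d) = true ∧ Rc n (cl2 n ω) (nb (0, 0) d) v) ?_ hR).1 (Or.inl (Rc.refl _ _))
  · rcases key with h1 | ⟨d, h1, h2⟩
    · exact hw ⟨m, hm, h1⟩
    · have h3 := h2.symm.shift (-m)
      rw [sh_neg] at h3
      exact hP' d (-m) (by omega) h3
  · intro u d hu
    by_cases hd : ∃ e, ix n u d = ix n (0, 0) e
    · obtain ⟨e, he⟩ := hd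
      obtain ⟨hde, k, hk⟩ := ix_eq he.symm
      subst hde
      subst hk
      rw [ix_sh] at hu
      rw [← sh_nb]
      by_cases hk0 : k = 0
      · subst hk0
        rw [sh_zero, sh_zero]
        exact ⟨fun _ => Or.inr ⟨e, hu, Rc.refl _ _⟩, fun _ => Or.inl (Rc.refl _ _)⟩
      · constructor
        · rintro (h1 | ⟨d', h1, h2⟩)
          · exact absurd ⟨k, hk0, h1⟩ hw
          · exfalso
            have h3 := h2.symm.shift (-k)
            rw [sh_neg] at h3
            exact hP' d' (-k) (by omega) h3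
        · rintro (h1 | ⟨d', h1, h2⟩)
          · exact absurd h1 (hP' e k hk0)
          · exact absurd h2 (hUno d' e k hk0 h1 hu)
    · push Not at hd
      have h1 : cl2 n ω (ix n u d) = true := by rw [cl2_of hd]; exact hu
      have e := Rc.edge h1
      constructor
      · rintro (h2 | ⟨d', h2, h3⟩)
        · exact Or.inl (h2.trans e)
        · exact Or.inr ⟨d', h2, h3.trans e⟩
      · rintro (h2 | ⟨d', h2, h3⟩)
        · exact Or.inl (h2.trans e.symm)
        · exact Or.inr ⟨d', h2, h3.trans e.symm⟩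

/-! ### from a pivotal edge to the vertex event -/

theorem rc_of_dr {ω ω' : BConf n} (h : ∀ i : ℤ × ZMod n × Bool, i.1 < 0 → ω i = true → ω' i = true)
    {u v : ℤ × ℤ} (h' : DR n ω u v) : Rc n ω' u v := by
  have := (DR.closed (S := fun w => Rc n ω' u w) (ω := ω) ?_ h').1 (Rc.refl _ _)
  · exact this
  · intro w d h0 hw
    have h1 : Rc n ω' w (nb w d) := Rc.edge (h _ h0 hw)
    exact ⟨fun h => h.trans h1, fun h => h.trans h1.symm⟩

theorem imp_E1 {ω : BConf n} (hn : n ≠ 0)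
    (hb : ω (ix n (0, 0) false) = false)
    (h1 : ∃ m : ℤ, m ≠ 0 ∧ Rc n ω (0, 0) (sh n m (nb (0, 0) true))) (hw : ¬ Wd n ω (0, 0)) :
    upd n ω (ix n (0, 0) true) true ∈ E1 n := by
  obtain ⟨m, hm, hR⟩ := h1
  set a := ix n (0, 0) true with haa
  set ω' := upd n ω a true with hω'
  have va : ω' a = true := by rw [hω', upd_same]
  have vb : ω' (ix n (0, 0) false) = false := by
    rw [hω', upd_ne _ _ (ix_ne_d _ _).symm]; exact hb
  have vo : ∀ i, i ≠ a → ω' i = ω i := fun i hi => by rw [hω', upd_ne _ _ hi]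
  have hwA : ¬ Wd n ω (nb (0, 0) true) := by
    intro h
    exact hw (Wd.of_rc hR.symm (wd_sh m h))
  -- lower half
  have hDR : ∀ u v, DR n ω' u v → Rc n ω u v := by
    intro u v h
    refine rc_of_dr ?_ h
    intro i hi h2
    rw [← vo i ?_]
    · exact h2
    · rintro rfl
      simp [haa, ix] at hi
  -- upper half
  have hUR : ∀ (t u v : ℤ × ℤ), UR n ω' u v →
      (((∀ k, u = sh n k (0, 0) → Rc n ω t (sh n k (nb (0, 0) true))) ∧
        ((∀ k, u ≠ sh n k (0, 0)) → Rc n ω t u)) ↔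
       ((∀ k, v = sh n k (0, 0) → Rc n ω t (sh n k (nb (0, 0) true))) ∧
        ((∀ k, v ≠ sh n k (0, 0)) → Rc n ω t v))) := by
    intro t u v h
    refine UR.closed (S := fun v => (∀ k, v = sh n k (0, 0) → Rc n ω t (sh n k (nb (0, 0) true))) ∧
        ((∀ k, v ≠ sh n k (0, 0)) → Rc n ω t v)) ?_ h
    intro w d h0 hwd
    have hs2 : ∀ k, nb w d ≠ sh n k (0, 0) := by
      intro k
      apply sh_ne_lev
      rw [lev_nb]
      simp only
      omega
    by_cases hsp : ∃ k, w = sh n k (0, 0)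
    · obtain ⟨k, rfl⟩ := hsp
      rw [ix_sh] at hwd
      have hd : d = true := by
        cases d
        · rw [vb] at hwd; exact absurd hwd (by decide)
        · rfl
      subst hd
      rw [← sh_nb]
      constructor
      · rintro ⟨h2, -⟩
        refine ⟨fun k' h3 => absurd h3 (by rw [sh_nb]; exact hs2 k'), fun _ => h2 k rfl⟩
      · rintro ⟨-, h2⟩
        refine ⟨fun k' h3 => ?_, fun h3 => absurd rfl (h3 k)⟩
        have h4 := sh_inj hn h3
        subst h4
        exact h2 (by rw [sh_nb]; exact hs2)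
    · push Not at hsp
      have hwd' : ω (ix n w d) = true := by
        rw [← vo]
        · exact hwd
        · intro h2
          obtain ⟨_, k, h3⟩ := ix_eq (haa ▸ h2.symm : ix n (0, 0) true = ix n w d)
          exact hsp k h3
      have e := Rc.edge hwd'
      constructor
      · rintro ⟨-, h2⟩
        exact ⟨fun k' h3 => absurd h3 (hs2 k'), fun _ => (h2 hsp).trans e⟩
      · rintro ⟨-, h2⟩
        exact ⟨fun k' h3 => absurd h3 (hsp k'), fun _ => (h2 hs2).trans e.symm⟩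
  have nsp : ∀ {x : ℤ}, ¬ (n : ℤ) ∣ x → ∀ k, (x, -x) ≠ sh n k (0, 0) := by
    intro x hx k h
    exact hx (sh_dvd h)
  refine ⟨?_, ?_, ?_⟩
  · refine ⟨m, hm, ?_⟩
    rw [kk_iff_rc, ← sh_bd, zero_bd]
    have h2 : Rc n ω' (0, 0) (sh n m (nb (0, 0) true)) := Rc.mono (fun i => le_upd_true i) hR
    have h3 : Rc n ω' (0, 0) (nb (0, 0) true) := Rc.edge va
    exact h2.trans (h3.shift m).symm
  · -- the upper half does not wind
    rintro ⟨k, hk, h⟩
    have h2 := (eqvGen_closed (S := fun x : ℤ =>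
      ((∀ k, (x, -x) = sh n k (0, 0) → Rc n ω (nb (0, 0) true) (sh n k (nb (0, 0) true))) ∧
        ((∀ k, (x, -x) ≠ sh n k (0, 0)) → Rc n ω (nb (0, 0) true) (x, -x)))) ?_ h).1 ?_
    · apply hwA
      refine ⟨k, hk, h2.1 k ?_⟩
      rw [sh_zero_bd, zero_add]
    · rintro x y (h3 | ⟨h3, hx, hy⟩)
      · exact hUR _ _ _ h3
      · have h4 := hDR _ _ (dnR_eq.1 h3)
        constructor
        · rintro ⟨-, h5⟩
          exact ⟨fun k' h6 => absurd h6 (nsp hy k'), fun _ => (h5 (nsp hx)).trans h4⟩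
        · rintro ⟨-, h5⟩
          exact ⟨fun k' h6 => absurd h6 (nsp hx k'), fun _ => (h5 (nsp hy)).trans h4.symm⟩
    · refine ⟨fun k' h3 => ?_, fun h3 => absurd ?_ (h3 0)⟩
      · rw [zero_bd] at h3
        have h4 : k' = 0 := by
          refine (sh_inj hn (u := (0, 0)) (m := k') (k := 0) ?_)
          rw [← h3, sh_zero]
        rw [h4, sh_zero]
        exact Rc.refl _ _
      · rw [zero_bd, sh_zero]
  · -- the lower half does not wind
    rintro ⟨k, hk, h⟩
    have h2 := (eqvGen_closed (S := fun x : ℤ => Rc n ω (0, 0) (x, -x)) ?_ h).1 (by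
      rw [zero_bd]; exact Rc.refl _ _)
    · apply hw
      refine ⟨k, hk, ?_⟩
      rw [sh_zero_bd]
      rwa [zero_add] at h2
    · rintro x y (h3 | ⟨h3, hx, hy⟩)
      · have h4 := hDR _ _ (dnR_eq.1 h3)
        exact ⟨fun h5 => h5.trans h4, fun h5 => h5.trans h4.symm⟩
      · have h4 := (hUR (x, -x) _ _ h3).1 ⟨fun k' h6 => absurd h6 (nsp hx k'),
          fun _ => Rc.refl _ _⟩
        have h5 := h4.2 (nsp hy)
        exact ⟨fun h6 => h6.trans h5, fun h6 => h6.trans h5.symm⟩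

end det

end Pool.Agent.H63.Four
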