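import Mathlib
import Pool.Agent.H63.Four.PercE

set_option autoImplicit false

/-! Symmetries and the comparison of probabilities. -/

open MeasureTheory Filter Topology

namespace Pool.Agent.H63.Four

open Pool.Agent.H63.Bulk
open Pool.Agent.H65.Perc (infinitePi_map_comp_injective)

section sym

variable {n : ℕ} {φ φ' : ℤ × ℤ → ℤ × ℤ} {δ : Bool → Bool} {f : ℤ × ZMod n × Bool → ℤ × ZMod n × Bool}

/-- a symmetry of the periodic graph -/
structure Sym (n : ℕ) (φ φ' : ℤ × ℤ → ℤ × ℤ) (δ : Bool → Bool)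
    (f : ℤ × ZMod n × Bool → ℤ × ZMod n × Bool) (s : ℤ) : Prop where
  l : ∀ u, φ (φ' u) = u
  r : ∀ u, φ' (φ u) = u
  dd : ∀ d, δ (δ d) = d
  nb : ∀ u d, nb (φ u) (δ d) = φ (nb u d)
  ix : ∀ u d, ix n (φ u) (δ d) = f (ix n u d)
  inj : Function.Injective f
  sh : ∀ m u, φ (sh n m u) = Four.sh n (s * m) (φ u)
  s2 : s * s = 1

variable {s : ℤ} (H : Sym n φ φ' δ f s)

include H

theorem Sym.rc (ω : BConf n) (u v : ℤ × ℤ) :
    Rc n (fun i => ω (f i)) u v ↔ Rc n ω (φ u) (φ v) := by
  constructor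
  · intro h
    refine (Rc.closed (S := fun w => Rc n ω (φ u) (φ w)) ?_ h).1 (Rc.refl _ _)
    intro w d hw
    have h1 : Rc n ω (φ w) (φ (Four.nb w d)) := by
      rw [← H.nb]
      exact Rc.edge (by rw [H.ix]; exact hw)
    exact ⟨fun h => h.trans h1, fun h => h.trans h1.symm⟩
  · intro h
    have h2 := (Rc.closed (S := fun w => Rc n (fun i => ω (f i)) u (φ' w)) ?_ h).1
      (by rw [H.r]; exact Rc.refl _ _)
    · rwa [H.r] at h2
    · intro w d hw
      have h1 : Rc n (fun i => ω (f i)) (φ' w) (φ' (Four.nb w d)) := by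
        have e : φ' (Four.nb w d) = Four.nb (φ' w) (δ d) := by
          have := H.nb (φ' w) (δ d)
          rw [H.dd, H.l] at this
          rw [this, H.r]
        rw [e]
        refine Rc.edge ?_
        show ω (f (Four.ix n (φ' w) (δ d))) = true
        rw [← H.ix, H.dd, H.l]
        exact hw
      exact ⟨fun h => h.trans h1, fun h => h.trans h1.symm⟩

theorem Sym.wd (ω : BConf n) (u : ℤ × ℤ) : Wd n (fun i => ω (f i)) u ↔ Wd n ω (φ u) := by
  unfold Wd
  have hs : s ≠ 0 := by rintro rfl; have := H.s2; norm_num at this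
  constructor
  · rintro ⟨m, hm, h⟩
    rw [H.rc, H.sh] at h
    exact ⟨s * m, mul_ne_zero hs hm, h⟩
  · rintro ⟨m, hm, h⟩
    refine ⟨s * m, mul_ne_zero hs hm, ?_⟩
    rw [H.rc, H.sh, ← mul_assoc, H.s2, one_mul]
    exact h

theorem Sym.upd (ω : BConf n) (i : ℤ × ZMod n × Bool) (b : Bool) :
    upd n (fun i => ω (f i)) i b = fun j => upd n ω (f i) b (f j) := by
  funext j
  by_cases h : j = i
  · subst h; rw [upd_same, upd_same]
  · rw [upd_ne _ _ h, upd_ne _ _ (fun h' => h (H.inj h'))]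

theorem Sym.piv (ω : BConf n) (u : ℤ × ℤ) (d : Bool) :
    Piv n u d (fun i => ω (f i)) ↔ Piv n (φ u) (δ d) ω := by
  unfold Piv
  rw [H.upd, H.ix, H.nb]
  set ω' := Four.upd n ω (f (Four.ix n u d)) false with hω'
  have h1 := H.rc ω' u (Four.nb u d)
  have h2 := H.wd ω' u
  rw [h1, h2]
  have hs : s ≠ 0 := by rintro rfl; have := H.s2; norm_num at this
  have h3 : (∃ m : ℤ, m ≠ 0 ∧ Rc n (fun i => ω' (f i)) u (Four.sh n m (Four.nb u d))) ↔
      ∃ m : ℤ, m ≠ 0 ∧ Rc n ω' (φ u) (Four.sh n m (φ (Four.nb u d))) := by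
    constructor
    · rintro ⟨m, hm, h⟩
      rw [H.rc, H.sh] at h
      exact ⟨s * m, mul_ne_zero hs hm, h⟩
    · rintro ⟨m, hm, h⟩
      refine ⟨s * m, mul_ne_zero hs hm, ?_⟩
      rw [H.rc, H.sh, ← mul_assoc, H.s2, one_mul]
      exact h
  rw [h3]

theorem Sym.meas : (bulkMeasure n).map (fun ω i => ω (f i)) = bulkMeasure n :=
  infinitePi_map_comp_injective (PMF.uniformOfFintype Bool).toMeasure f H.inj

theorem Sym.prob (A : Set (BConf n)) (hA : MeasurableSet A) :
    (bulkMeasure n) {ω | (fun i => ω (f i)) ∈ A} = (bulkMeasure n) A := by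
  conv_rhs => rw [← H.meas]
  rw [Measure.map_apply (by fun_prop) hA]
  rfl

theorem Sym.prob_piv (u : ℤ × ℤ) (d : Bool) :
    (bulkMeasure n) {ω | Piv n (φ u) (δ d) ω} = (bulkMeasure n) {ω | Piv n u d ω} := by
  rw [← H.prob _ (measurable_Piv u d)]
  congr 1
  ext ω
  exact (H.piv ω u d).symm

end sym

/-- translations -/
theorem sym_tr (n : ℕ) (c : ℤ × ℤ) : Sym n (fun u => (u.1 + c.1, u.2 + c.2))
    (fun u => (u.1 - c.1, u.2 - c.2)) id
    (fun i => (i.1 + (c.1 + c.2), i.2.1 + (c.1 : ZMod n), i.2.2)) 1 where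
  l u := by simp
  r u := by simp
  dd d := rfl
  nb u d := by
    cases d
    · simp only [id, nb_false]
      refine Prod.ext rfl ?_
      simp only; ring
    · simp only [id, nb_true]
      refine Prod.ext ?_ rfl
      simp only; ring
  ix u d := by
    simp only [id, ix]
    refine Prod.ext ?_ (Prod.ext ?_ rfl)
    · simp only; ring
    · simp only; push_cast; rfl
  inj := by
    rintro ⟨k, a, d⟩ ⟨k', a', d'⟩ h
    simp only [Prod.mk.injEq] at h
    obtain ⟨h1, h2, h3⟩ := h
    refine Prod.ext (by simpa using h1) (Prod.ext (by simpa using h2) h3)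
  sh m u := by
    simp only [sh, one_mul, Prod.mk.injEq]
    constructor <;> ring
  s2 := by norm_num

/-- reflection -/
theorem sym_rf (n : ℕ) : Sym n (fun u => (u.2, u.1)) (fun u => (u.2, u.1)) (fun d => !d)
    (fun i => (i.1, (i.1 : ZMod n) - i.2.1, !i.2.2)) (-1) where
  l u := rfl
  r u := rfl
  dd d := by simp
  nb u d := by
    cases d
    · simp only [Bool.not_false, nb_true, nb_false]
    · simp only [Bool.not_true, nb_true, nb_false]
  ix u d := by
    simp only [ix]
    refine Prod.ext ?_ (Prod.ext ?_ rfl)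
    · simp only; ring
    · simp only; push_cast; ring
  inj := by
    rintro ⟨k, a, d⟩ ⟨k', a', d'⟩ h
    simp only [Prod.mk.injEq] at h
    obtain ⟨h1, h2, h3⟩ := h
    subst h1
    refine Prod.ext rfl (Prod.ext (by simpa using h2) (by simpa using h3))
  sh m u := by
    simp only [sh, Prod.mk.injEq]
    constructor <;> ring
  s2 := by norm_num

/-- **all edges have the same probability to be pivotal** -/
theorem prob_piv (n : ℕ) (u : ℤ × ℤ) (d : Bool) :
    (bulkMeasure n) {ω | Piv n u d ω} = (bulkMeasure n) {ω | Piv n (0, 0) true ω} := by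
  have h1 := (sym_tr n u).prob_piv (0, 0) d
  simp only [zero_add, id] at h1
  rw [h1]
  cases d
  · have h2 := (sym_rf n).prob_piv (0, 0) true
    simp only [Bool.not_true] at h2
    exact h2
  · rfl

section comp

variable (n : ℕ) [NeZero n]

theorem toReal_union_le {A B : Set (BConf n)} :
    ((bulkMeasure n) (A ∪ B)).toReal ≤ ((bulkMeasure n) A).toReal + ((bulkMeasure n) B).toReal := by
  rw [← ENNReal.toReal_add (by finiteness) (by finiteness)]
  exact ENNReal.toReal_mono (by finiteness) (measure_union_le _ _)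

/-- upper bound -/
theorem piv_le : ((bulkMeasure n) {ω | Piv n (0, 0) true ω}).toReal ≤
    2 * ((bulkMeasure n) (E2 n)).toReal + 2 * ((bulkMeasure n) (E1 n)).toReal := by
  have hn : n ≠ 0 := NeZero.ne n
  set a := ix n (0, 0) true with ha
  set b := ix n (0, 0) false with hb
  have hab : b ≠ a := (ix_ne_d _ _).symm
  set T := sym_tr n (0, 1)
  set f : ℤ × ZMod n × Bool → ℤ × ZMod n × Bool :=
    (fun i => (i.1 + ((0, 1) : ℤ × ℤ).1 + ((0, 1) : ℤ × ℤ).2, i.2.1 + ((((0, 1) : ℤ × ℤ).1 : ℤ) : ZMod n), i.2.2)) with hf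
  have hsub : {ω : BConf n | Piv n (0, 0) true ω} ⊆
      ({ω | Piv n (0, 0) true ω ∧ ω b = true} ∪ {ω | Piv n (0, 0) true ω ∧ ω b = false}) := by
    intro ω hω
    cases h : ω b
    · exact Or.inr ⟨hω, h⟩
    · exact Or.inl ⟨hω, h⟩
  have h1 : ((bulkMeasure n) {ω | Piv n (0, 0) true ω ∧ ω b = true}).toReal ≤
      2 * ((bulkMeasure n) (E2 n)).toReal := by
    rw [← T.prob (E2 n) (measurable_E2 n)]
    refine prob_upd ?_ a false ?_
    · have : Measurable (fun (ω : BConf n) (i : ℤ × ZMod n × Bool) =>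
        ω (i.1 + (((0, 1) : ℤ × ℤ).1 + ((0, 1) : ℤ × ℤ).2),
          i.2.1 + ((((0, 1) : ℤ × ℤ).1 : ℤ) : ZMod n), i.2.2)) := by fun_prop
      exact this (measurable_E2 n)
    · rintro ω ⟨⟨p1, ⟨m, hm, p2⟩, p3⟩, hωb⟩
      rw [← ha] at p1 p2 p3
      have ho : upd n ω a false b = true := by rw [upd_ne _ _ hab]; exact hωb
      have e0 : Rc n (upd n ω a false) (0, 0) (nb (0, 0) false) := Rc.edge ho
      refine imp_E2 ?_ ⟨m, hm, ?_⟩
      · rw [T.wd]
        intro h
        apply p3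
        refine Wd.of_rc ?_ h
        have : ((0, 0) : ℤ × ℤ).1 + ((0, 1) : ℤ × ℤ).1 = 0 := by norm_num
        have e1 : (((0, 0) : ℤ × ℤ).1 + ((0, 1) : ℤ × ℤ).1,
          ((0, 0) : ℤ × ℤ).2 + ((0, 1) : ℤ × ℤ).2) = nb (0, 0) false := by
          rw [nb_false]; norm_num
        rw [e1]
        exact e0.symm
      · rw [T.rc, T.sh]
        have e1 : (((0, 0) : ℤ × ℤ).1 + ((0, 1) : ℤ × ℤ).1,
          ((0, 0) : ℤ × ℤ).2 + ((0, 1) : ℤ × ℤ).2) = nb (0, 0) false := by
          rw [nb_false]; norm_num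
        have e2 : (((1, -1) : ℤ × ℤ).1 + ((0, 1) : ℤ × ℤ).1,
          ((1, -1) : ℤ × ℤ).2 + ((0, 1) : ℤ × ℤ).2) = nb (0, 0) true := by
          rw [nb_true]; norm_num
        rw [e1, e2, one_mul]
        exact e0.symm.trans p2
  have h2 : ((bulkMeasure n) {ω | Piv n (0, 0) true ω ∧ ω b = false}).toReal ≤
      2 * ((bulkMeasure n) (E1 n)).toReal := by
    refine prob_upd (measurable_E1 n) a true ?_
    rintro ω ⟨⟨p1, p2, p3⟩, hωb⟩
    rw [← ha] at p1 p2 p3
    have ho : upd n ω a false b = false := by rw [upd_ne _ _ hab]; exact hωb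
    have h3 := imp_E1 hn ho p2 p3
    have e : upd n (upd n ω a false) (ix n (0, 0) true) true = upd n ω a true := by
      funext j
      by_cases hj : j = a
      · subst hj; rw [upd_same, upd_same]
      · rw [upd_ne _ _ hj, upd_ne _ _ hj, upd_ne _ _ hj]
    rwa [e] at h3
  have h3 := ENNReal.toReal_mono (by finiteness) (measure_mono (μ := bulkMeasure n) hsub)
  have h4 := toReal_union_le n (A := {ω | Piv n (0, 0) true ω ∧ ω b = true})
    (B := {ω | Piv n (0, 0) true ω ∧ ω b = false})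
  linarith

/-- lower bound -/
theorem E1_le : ((bulkMeasure n) (E1 n)).toReal ≤
    8 * ((bulkMeasure n) {ω | Piv n (0, 0) true ω}).toReal := by
  set B : Set (BConf n) := {ω | Piv n (0, 0) true ω} ∪ {ω | Piv n (0, 0) false ω} with hB
  have hBm : MeasurableSet B := (measurable_Piv _ _).union (measurable_Piv _ _)
  have h1 : ((bulkMeasure n) (E1 n)).toReal ≤ 2 * ((bulkMeasure n)
      {ω | upd n ω (ix n (0, 0) false) false ∈ B}).toReal := by
    refine prob_upd (measurable_Rc_upd _ _ hBm) (ix n (0, 0) true) false ?_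
    intro ω hω
    obtain ⟨d, hd⟩ := E1_imp hω
    show cl2 n ω ∈ B
    cases d
    · exact Or.inr hd
    · exact Or.inl hd
  have h2 : ((bulkMeasure n) {ω | upd n ω (ix n (0, 0) false) false ∈ B}).toReal ≤
      2 * ((bulkMeasure n) B).toReal := prob_upd hBm _ _ (fun ω hω => hω)
  have h3 := toReal_union_le n (A := {ω | Piv n (0, 0) true ω}) (B := {ω | Piv n (0, 0) false ω})
  rw [prob_piv n (0, 0) false] at h3
  linarith

theorem E2_le : ((bulkMeasure n) (E2 n)).toReal ≤
    10 * ((bulkMeasure n) {ω | Piv n (0, 0) true ω}).toReal := by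
  have hn : n ≠ 0 := NeZero.ne n
  set B : Set (BConf n) := {ω | Piv n (0, 0) true ω} with hB
  have hBm : MeasurableSet B := measurable_Piv _ _
  set p := ix n (1, 0) true
  set q := ix n (1, 0) false
  set f := ix n (1, -1) false
  set C1 : Set (BConf n) := {ω | upd n ω f true ∈ B} with hC1
  set C2 : Set (BConf n) := {ω | upd n ω q false ∈ C1} with hC2
  set C3 : Set (BConf n) := {ω | upd n ω p false ∈ C2} with hC3
  have m1 : MeasurableSet C1 := measurable_Rc_upd _ _ hBm
  have m2 : MeasurableSet C2 := measurable_Rc_upd _ _ m1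
  have h1 : ((bulkMeasure n) C1).toReal ≤ 2 * ((bulkMeasure n) B).toReal :=
    prob_upd hBm _ _ (fun ω hω => hω)
  have h2 : ((bulkMeasure n) C2).toReal ≤ 2 * ((bulkMeasure n) C1).toReal :=
    prob_upd m1 _ _ (fun ω hω => hω)
  have h3 : ((bulkMeasure n) C3).toReal ≤ 2 * ((bulkMeasure n) C2).toReal :=
    prob_upd m2 _ _ (fun ω hω => hω)
  have h4 : E2 n ⊆ (B ∪ {ω | Piv n (1, -1) false ω}) ∪ C3 := by
    intro ω hω
    rcases E2_cases hn hω with h | h | h
    · exact Or.inl (Or.inl h)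
    · exact Or.inl (Or.inr h)
    · exact Or.inr h
  have h5 := ENNReal.toReal_mono (by finiteness) (measure_mono (μ := bulkMeasure n) h4)
  have h6 := toReal_union_le n (A := B ∪ {ω | Piv n (1, -1) false ω}) (B := C3)
  have h7 := toReal_union_le n (A := B) (B := {ω | Piv n (1, -1) false ω})
  rw [prob_piv n (1, -1) false] at h7
  linarith

/-- **the four-leg sum and the pivotal probability** -/
theorem piv_F4 : ((bulkMeasure n) {ω | Piv n (0, 0) true ω}).toReal ≤ 4 * F4 n ∧
    F4 n ≤ 18 * ((bulkMeasure n) {ω | Piv n (0, 0) true ω}).toReal := by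
  obtain ⟨h1, h2, h3⟩ := E_bounds n
  have h4 := piv_le n
  have h5 := E1_le n
  have h6 := E2_le n
  constructor <;> linarith

end comp

end Pool.Agent.H63.Four
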