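import Mathlib
import Pool.Agent.H63.Four.PercF
import Pool.Agent.H37.Four.Main
import Pool.Agent.H23.BO.Legs
import Pool.Agent.H13.Four.Eval

set_option autoImplicit false

/-! The probability that an edge of the bi-infinite cylinder is pivotal for winding. -/

open MeasureTheory Filter Topology

namespace Pool.Agent.H63.Four

open Pool.Agent.H63.Bulk
open Pool.Agent.H51.TA (Ph Ph_sol Ph_half val sum_val_sq gdet gdet_ne_zero exists_q cons2 Pat)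

theorem G22_half (n : ℕ) : G22 (fun n _ => Ph n) n (1 / 2) (1 / 2) (1 / 2) (1 / 2) (fun _ => 1 / 2) =
    (3 / 4) ^ ((2 * n + 1) * (2 * n + 2)) * (1 + PP 4 (2 * n)).det := by
  refine G22_hom' (fun n _ => Ph_sol n) ?_ n
  intro p m
  exact Pool.Agent.H23.BO.Legs.FF_tendsto' p m

open Classical in
theorem F4_eq (n : ℕ) {q : ℂ} (hq : q ^ 2 - q + 1 = 0) :
    ((F4 (n + 1) : ℝ) : ℂ) = (1 + PP 4 (2 * n)).det / gdet (n + 1) q := by
  have h1 := G22_half n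
  have h2 := sum_val_sq (n + 1) hq
  have e1 : (cons2 (1 / 2) (1 / 2) (fun _ => 1 / 2) : Fin (2 * (n + 1)) → ℂ) = fun _ => 1 / 2 := by
    unfold cons2
    funext i
    refine Fin.cases ?_ (fun j => ?_) i
    · rfl
    · refine Fin.cases ?_ (fun k => ?_) j
      · rfl
      · rfl
  have e2 : (fun i => 1 - (fun _ => 1 / 2 : Fin (2 * (n + 1)) → ℂ) i) =
      fun _ => 1 / 2 := by
    funext i
    norm_num
  unfold G22 at h1
  rw [e1, e2] at h1
  have h3 : (∑ π : Pat (2 * (n + 1)), ∑ π' : Pat (2 * (n + 1)),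
      Ph (n + 1) (fun _ => 1 / 2) π * Ph (n + 1) (fun _ => 1 / 2) π' * I4 π π') =
      ((∑ π : Pat (2 * (n + 1)), ∑ π' : Pat (2 * (n + 1)), val (n + 1) π * val (n + 1) π' *
        (if FourLeg π π' then (1 : ℝ) else 0) : ℝ) : ℂ) := by
    push_cast
    refine Finset.sum_congr rfl fun π _ => Finset.sum_congr rfl fun π' _ => ?_
    rw [Ph_half, Ph_half]
    unfold I4
    congr 1
    split_ifs <;> simp
  rw [h3] at h1
  unfold F4
  rw [Complex.ofReal_div, h1, Complex.ofReal_pow, h2]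
  have e3 : ((9 : ℂ) / 16) ^ ((n + 1) * (2 * (n + 1) - 1)) = (3 / 4) ^ ((2 * n + 1) * (2 * n + 2)) := by
    rw [show ((9 : ℂ) / 16) = (3 / 4) ^ 2 by norm_num, ← pow_mul]
    congr 1
    have : 2 * (n + 1) - 1 = 2 * n + 1 := by omega
    rw [this]
    ring
  rw [e3, mul_div_mul_left _ _ (pow_ne_zero _ (by norm_num))]

theorem F4_nonneg (n : ℕ) [NeZero n] : 0 ≤ F4 n := by
  have h := (E_bounds n).1
  exact le_trans ENNReal.toReal_nonneg h

theorem F4_bounds : ∃ c C : ℝ, 0 < c ∧ 0 < C ∧ ∀ (n : ℕ) [NeZero n], 2 ≤ n →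
    c * (n : ℝ) ^ (-(5 / 4) : ℝ) ≤ F4 n ∧ F4 n ≤ C * (n : ℝ) ^ (-(5 / 4) : ℝ) := by
  obtain ⟨c, C, hc, hC, h⟩ := Pool.Agent.H13.Four.eval_gdet 2 (by norm_num)
  refine ⟨c, C, hc, hC, ?_⟩
  intro n inst hn
  obtain ⟨k, rfl⟩ : ∃ k, n = k + 1 := ⟨n - 1, by omega⟩
  obtain ⟨q, hq⟩ := exists_q
  have h1 := h (k + 1) hn q hq
  have h2 := F4_eq k hq
  have h3 : F4 (k + 1) = ‖(1 + PP 4 (2 * k)).det‖ / ‖gdet (k + 1) q‖ := by
    rw [← norm_div, ← h2, Complex.norm_real, Real.norm_of_nonneg (F4_nonneg _)]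
  have h4 : 2 * (k + 1) - 2 = 2 * k := by omega
  rw [h4] at h1
  have h5 : (1 + PP 4 (2 * k)).det = (1 + Matrix.of fun i j : Fin (2 * k) =>
      ((((i : ℕ) + j + 2 * 2).choose i : ℕ) : ℂ)).det := rfl
  rw [h3, h5]
  have h6 : (-(4 * ((2 : ℕ) : ℝ) ^ 2 - 1) / 12 : ℝ) = (-(5 / 4) : ℝ) := by norm_num
  rw [h6] at h1
  exact h1

/-- **the four-arm exponent on the cylinder**: the probability that an edge is pivotal for the
winding of its ends -/
theorem piv_bounds : ∃ c C : ℝ, 0 < c ∧ 0 < C ∧ ∀ n : ℕ, 2 ≤ n → ∀ (u : ℤ × ℤ) (d : Bool),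
    c * (n : ℝ) ^ (-(5 / 4) : ℝ) ≤ ((bulkMeasure n) {ω | Piv n u d ω}).toReal ∧
      ((bulkMeasure n) {ω | Piv n u d ω}).toReal ≤ C * (n : ℝ) ^ (-(5 / 4) : ℝ) := by
  obtain ⟨c, C, hc, hC, h⟩ := F4_bounds
  refine ⟨c / 18, 4 * C, by positivity, by positivity, fun n hn u d => ?_⟩
  have : NeZero n := ⟨by omega⟩
  obtain ⟨h1, h2⟩ := h n hn
  obtain ⟨h3, h4⟩ := piv_F4 n
  rw [prob_piv]
  constructor <;> linarith

end Pool.Agent.H63.Four
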