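import Mathlib
import Pool.Agent.H65.Perc.HalfDefs

set_option autoImplicit false

/-! The four-arm event of an edge of `ℤ²`: definitions (MP_fe58d8_pr). -/

namespace Pool.Agent.H63.Four

open Pool.Agent.H65.Perc (PConf)

/-- the vertices of sup-norm at most `N` -/
def Box (N : ℕ) (u : ℤ × ℤ) : Prop := |u.1| ≤ (N : ℤ) ∧ |u.2| ≤ (N : ℤ)

/-- the graph of the open edges inside the box of sup-norm radius `N` -/
def boxGraph (N : ℕ) (ω : PConf) : SimpleGraph (ℤ × ℤ) :=
  SimpleGraph.fromRel (fun u v => Box N u ∧ Box N v ∧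
    ((v = (u.1 + 1, u.2) ∧ ω (u, true) = true) ∨ (v = (u.1, u.2 + 1) ∧ ω (u, false) = true)))

/-- the configuration in which the edge `e` from `(0,0)` to `(1,0)` is closed -/
def cut (ω : PConf) : PConf := Function.update ω ((0, 0), true) false

/-- the four-arm event of the edge `e` from `(0,0)` to `(1,0)`: without `e`, both ends of `e` are
connected inside the box to sup-norm distance `N`, but not to each other -/
def FourArm (N : ℕ) (ω : PConf) : Prop :=
  (∃ v : ℤ × ℤ, ((N : ℤ) ≤ |v.1| ∨ (N : ℤ) ≤ |v.2|) ∧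
      (boxGraph N (cut ω)).Reachable (0, 0) v) ∧
    (∃ v : ℤ × ℤ, ((N : ℤ) ≤ |v.1| ∨ (N : ℤ) ≤ |v.2|) ∧
      (boxGraph N (cut ω)).Reachable (1, 0) v) ∧
    ¬ (boxGraph N (cut ω)).Reachable (0, 0) (1, 0)

end Pool.Agent.H63.Four
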