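import Mathlib
import Pool.Agent.H63.Four.PlaneDefs
import Pool.Agent.H63.Four.Gr

set_option autoImplicit false

/-! The pivotal probability on the cylinder is at most the four-arm probability of the plane. -/

open MeasureTheory Filter Topology

namespace Pool.Agent.H63.Four

open Pool.Agent.H63.Bulk
open Pool.Agent.H65.Perc (PConf planeMeasure infinitePi_map_comp_injective
  measurableSet_reachable)

/-- connection inside the box -/
def BR (N : ℕ) (ω : PConf) (u v : ℤ × ℤ) : Prop := (boxGraph N ω).Reachable u v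

theorem BR.refl {N : ℕ} (ω : PConf) (u : ℤ × ℤ) : BR N ω u u := SimpleGraph.Reachable.refl _
theorem BR.symm {N : ℕ} {ω : PConf} {u v : ℤ × ℤ} (h : BR N ω u v) : BR N ω v u :=
  SimpleGraph.Reachable.symm h
theorem BR.trans {N : ℕ} {ω : PConf} {u v w : ℤ × ℤ} (h : BR N ω u v) (h' : BR N ω v w) :
    BR N ω u w := SimpleGraph.Reachable.trans h h'

theorem nb_ne' (u : ℤ × ℤ) (d : Bool) : nb u d ≠ u := by
  intro h
  cases d
  · rw [nb_false] at h
    have := congrArg Prod.snd h
    simp at this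
  · rw [nb_true] at h
    have := congrArg Prod.fst h
    simp at this

theorem box_adj_iff {N : ℕ} {ω : PConf} {u v : ℤ × ℤ} : (boxGraph N ω).Adj u v ↔
    Box N u ∧ Box N v ∧ ∃ d, (v = nb u d ∧ ω (u, d) = true) ∨ (u = nb v d ∧ ω (v, d) = true) := by
  simp only [boxGraph, SimpleGraph.fromRel_adj]
  constructor
  · rintro ⟨_, ⟨h1, h2, h | h⟩ | ⟨h1, h2, h | h⟩⟩
    · exact ⟨h1, h2, true, Or.inl ⟨by rw [nb_true]; exact h.1, h.2⟩⟩
    · exact ⟨h1, h2, false, Or.inl ⟨by rw [nb_false]; exact h.1, h.2⟩⟩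
    · exact ⟨h2, h1, true, Or.inr ⟨by rw [nb_true]; exact h.1, h.2⟩⟩
    · exact ⟨h2, h1, false, Or.inr ⟨by rw [nb_false]; exact h.1, h.2⟩⟩
  · rintro ⟨h1, h2, d, ⟨h3, h4⟩ | ⟨h3, h4⟩⟩
    · refine ⟨by rw [h3]; exact (nb_ne' u d).symm, Or.inl ⟨h1, h2, ?_⟩⟩
      cases d
      · exact Or.inr ⟨by rw [nb_false] at h3; exact h3, h4⟩
      · exact Or.inl ⟨by rw [nb_true] at h3; exact h3, h4⟩
    · refine ⟨by rw [h3]; exact nb_ne' v d, Or.inr ⟨h2, h1, ?_⟩⟩
      cases d
      · exact Or.inr ⟨by rw [nb_false] at h3; exact h3, h4⟩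
      · exact Or.inl ⟨by rw [nb_true] at h3; exact h3, h4⟩

theorem BR.edge {N : ℕ} {ω : PConf} {u : ℤ × ℤ} {d : Bool} (h1 : Box N u) (h2 : Box N (nb u d))
    (h : ω (u, d) = true) : BR N ω u (nb u d) :=
  SimpleGraph.Adj.reachable (box_adj_iff.2 ⟨h1, h2, d, Or.inl ⟨rfl, h⟩⟩)

theorem BR.closed {N : ℕ} {ω : PConf} {S : ℤ × ℤ → Prop}
    (hS : ∀ u d, Box N u → Box N (nb u d) → ω (u, d) = true → (S u ↔ S (nb u d)))
    {u v : ℤ × ℤ} (h : BR N ω u v) : S u ↔ S v := by
  unfold BR at h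
  rw [SimpleGraph.reachable_iff_reflTransGen] at h
  induction h with
  | refl => exact Iff.rfl
  | tail _ h ih =>
    refine ih.trans ?_
    obtain ⟨h1, h2, d, ⟨rfl, h4⟩ | ⟨rfl, h4⟩⟩ := box_adj_iff.1 h
    · exact hS _ d h1 h2 h4
    · exact (hS _ d h2 h1 h4).symm

theorem abs_nb (u : ℤ × ℤ) (d : Bool) {N : ℤ} (h1 : |u.1| < N) (h2 : |u.2| < N) :
    |(nb u d).1| ≤ N ∧ |(nb u d).2| ≤ N := by
  rw [abs_lt] at h1 h2
  rw [abs_le, abs_le]
  cases d
  · rw [nb_false]; simp only; omega
  · rw [nb_true]; simp only; omega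

theorem abs_nb' (u : ℤ × ℤ) (d : Bool) {N : ℤ} (h1 : |(nb u d).1| < N) (h2 : |(nb u d).2| < N) :
    |u.1| ≤ N ∧ |u.2| ≤ N := by
  rw [abs_lt] at h1 h2
  rw [abs_le, abs_le]
  cases d
  · rw [nb_false] at h1 h2; simp only at h1 h2; omega
  · rw [nb_true] at h1 h2; simp only at h1 h2; omega

section tr

variable {n N : ℕ}

/-- the periodic configuration of a plane configuration -/
def per (n N : ℕ) (ω : PConf) : BConf n := fun e => ω (liftB n N e)

theorem per_ix [NeZero n] (hn : 2 * N < n) (ω : PConf) {u : ℤ × ℤ} (d : Bool) (h : |u.1| ≤ N) :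
    per n N ω (ix n u d) = ω (u, d) := by
  rw [abs_le] at h
  unfold per ix
  rw [liftB_class n N u d (by omega) (by omega)]

theorem per_cut [NeZero n] (hn : 2 * N < n) (ω : PConf) :
    upd n (per n N ω) (ix n (0, 0) true) false = per n N (cut ω) := by
  have h0 : liftB n N (ix n (0, 0) true) = ((0, 0), true) := by
    unfold ix
    exact liftB_class n N (0, 0) true (by simp) (by simp only; omega)
  funext j
  by_cases hj : j = ix n (0, 0) true
  · subst hj
    rw [upd_same]
    unfold per cut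
    rw [h0, Function.update_self]
  · rw [upd_ne _ _ hj]
    unfold per cut
    rw [Function.update_of_ne]
    intro h
    apply hj
    apply liftB_injective n N
    rw [h, h0]

/-- connections in the box are connections on the cylinder -/
theorem rc_of_br [NeZero n] (hn : 2 * N < n) {ω : PConf} {u v : ℤ × ℤ} (h : BR N ω u v) :
    Rc n (per n N ω) u v := by
  have := (BR.closed (S := fun w => Rc n (per n N ω) u w) ?_ h).1 (Rc.refl _ _)
  · exact this
  · intro w d h1 _ h3
    have h4 : Rc n (per n N ω) w (nb w d) := Rc.edge (by rw [per_ix hn ω d h1.1]; exact h3)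
    exact ⟨fun h => h.trans h4, fun h => h.trans h4.symm⟩

/-- a connection on the cylinder to a far vertex contains a connection in the box to its
boundary -/
theorem br_of_rc [NeZero n] (hn : 2 * N < n) {ω : PConf} {u v : ℤ × ℤ}
    (hv : (N : ℤ) ≤ |v.1| ∨ (N : ℤ) ≤ |v.2|) (h : Rc n (per n N ω) u v) :
    ∃ w : ℤ × ℤ, ((N : ℤ) ≤ |w.1| ∨ (N : ℤ) ≤ |w.2|) ∧ BR N ω u w := by
  by_contra hcon
  push Not at hcon
  have hb : ∀ w, BR N ω u w → |w.1| < N ∧ |w.2| < N := by
    intro w hw
    by_contra h1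
    rw [not_and_or, not_lt, not_lt] at h1
    exact hcon w h1 hw
  have key := (Rc.closed (S := fun w => BR N ω u w) ?_ h).1 (BR.refl _ _)
  · have := hb v key
    rcases hv with h1 | h1 <;> omega
  · intro w d hw
    constructor
    · intro h1
      have h2 := hb w h1
      have h3 := abs_nb w d h2.1 h2.2
      rw [per_ix hn ω d h2.1.le] at hw
      exact h1.trans (BR.edge ⟨h2.1.le, h2.2.le⟩ h3 hw)
    · intro h1
      have h2 := hb _ h1
      have h3 := abs_nb' w d h2.1 h2.2
      rw [per_ix hn ω d h3.1] at hw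
      exact h1.trans (BR.edge h3 ⟨h2.1.le, h2.2.le⟩ hw).symm

theorem fourArm_of_piv [NeZero n] (hn : 2 * N + 1 < n) {ω : PConf}
    (h : Piv n (0, 0) true (per n N ω)) : FourArm N ω := by
  have hn' : 2 * N < n := by omega
  unfold Piv at h
  rw [per_cut hn'] at h
  obtain ⟨h1, ⟨m, hm, h2⟩, -⟩ := h
  have e1 : nb (0, 0) true = (1, 0) := by rw [nb_true]; rfl
  rw [e1] at h1 h2
  have hmn : (n : ℤ) ≤ |m * n| := by
    rw [abs_mul]
    have h1 : (1 : ℤ) ≤ |m| := Int.one_le_abs hm
    have h2 : |(n : ℤ)| = n := abs_of_nonneg (by positivity)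
    rw [h2]
    nlinarith
  refine ⟨?_, ?_, fun h => h1 (rc_of_br hn' h)⟩
  · refine br_of_rc hn' (v := sh n m (1, 0)) (Or.inr ?_) h2
    simp only [sh, zero_sub, abs_neg]
    omega
  · refine br_of_rc hn' (v := sh n (-m) (0, 0)) (Or.inr ?_) ?_
    · simp only [sh, zero_sub, abs_neg, neg_mul]
      omega
    · have := h2.symm.shift (-m)
      rwa [sh_neg] at this

end tr

/-- **the pivotal probability is at most the four-arm probability** -/
theorem piv_le_fourArm (n N : ℕ) (hn : 2 * N + 1 < n) :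
    ((bulkMeasure n) {ω | Piv n (0, 0) true ω}).toReal ≤ (planeMeasure {ω | FourArm N ω}).toReal := by
  have : NeZero n := ⟨by omega⟩
  have hmeas : Measurable (fun (ω : PConf) (e : ℤ × ZMod n × Bool) => ω (liftB n N e)) := by fun_prop
  have e : bulkMeasure n = planeMeasure.map (fun (ω : PConf) (e : ℤ × ZMod n × Bool) =>
      ω (liftB n N e)) :=
    (infinitePi_map_comp_injective (PMF.uniformOfFintype Bool).toMeasure (liftB n N)
      (liftB_injective n N)).symm
  apply ENNReal.toReal_mono (measure_ne_top _ _)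
  rw [e, Measure.map_apply hmeas (measurable_Piv _ _)]
  apply measure_mono
  intro ω hω
  exact fourArm_of_piv hn hω

theorem measurableSet_fourArm (N : ℕ) : MeasurableSet {ω : PConf | FourArm N ω} := by
  have hadj : ∀ u v : ℤ × ℤ, MeasurableSet {ω : PConf | (boxGraph N ω).Adj u v} := by
    intro u v
    have key : ∀ (c : Prop) (e : (ℤ × ℤ) × Bool), MeasurableSet {ω : PConf | c ∧ ω e = true} := by
      intro c e
      apply MeasurableSet.inter (MeasurableSet.const c)
      exact measurableSet_eq_fun (measurable_pi_apply e) measurable_const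
    simp only [boxGraph, SimpleGraph.fromRel_adj]
    apply MeasurableSet.inter (MeasurableSet.const _)
    apply MeasurableSet.union
    · exact (MeasurableSet.const _).inter ((MeasurableSet.const _).inter
        (MeasurableSet.union (key _ _) (key _ _)))
    · exact (MeasurableSet.const _).inter ((MeasurableSet.const _).inter
        (MeasurableSet.union (key _ _) (key _ _)))
  have hr : ∀ u v : ℤ × ℤ, MeasurableSet {ω : PConf | (boxGraph N ω).Reachable u v} := fun u v =>
    measurableSet_reachable _ hadj u v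
  have hcut : Measurable cut := by
    refine measurable_pi_lambda _ fun j => ?_
    by_cases h : j = ((0, 0), true)
    · subst h
      simp only [cut, Function.update_self]
      exact measurable_const
    · simp only [cut, Function.update_of_ne h]
      exact measurable_pi_apply _
  have hx : ∀ u : ℤ × ℤ, MeasurableSet {ω : PConf | ∃ v : ℤ × ℤ, ((N : ℤ) ≤ |v.1| ∨
      (N : ℤ) ≤ |v.2|) ∧ (boxGraph N ω).Reachable u v} := by
    intro u
    have : {ω : PConf | ∃ v : ℤ × ℤ, ((N : ℤ) ≤ |v.1| ∨ (N : ℤ) ≤ |v.2|) ∧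
        (boxGraph N ω).Reachable u v} = ⋃ v : ℤ × ℤ, ({_ω | (N : ℤ) ≤ |v.1| ∨ (N : ℤ) ≤ |v.2|} ∩
        {ω | (boxGraph N ω).Reachable u v}) := by
      ext ω
      simp
    rw [this]
    exact MeasurableSet.iUnion (fun v => (MeasurableSet.const _).inter (hr _ _))
  have : {ω : PConf | FourArm N ω} = cut ⁻¹' (({ω : PConf | ∃ v : ℤ × ℤ, ((N : ℤ) ≤ |v.1| ∨
      (N : ℤ) ≤ |v.2|) ∧ (boxGraph N ω).Reachable (0, 0) v} ∩ {ω : PConf | ∃ v : ℤ × ℤ,
      ((N : ℤ) ≤ |v.1| ∨ (N : ℤ) ≤ |v.2|) ∧ (boxGraph N ω).Reachable (1, 0) v}) ∩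
      {ω : PConf | (boxGraph N ω).Reachable (0, 0) (1, 0)}ᶜ) := by
    ext ω
    simp [FourArm, and_assoc]
  rw [this]
  exact hcut (((hx _).inter (hx _)).inter (hr _ _).compl)

end Pool.Agent.H63.Four
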