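import Mathlib
import Pool.Agent.H63.Four.PlaneLow
import Pool.Agent.H63.Four.Cyl

set_option autoImplicit false

/-! Lower bound for the four-arm probability of the plane. -/

open MeasureTheory Filter Topology

namespace Pool.Agent.H63.Four

open Pool.Agent.H65.Perc (planeMeasure)

/-- **lower bound of the four-arm probability of the plane** -/
theorem fourArm_lower : ∃ c : ℝ, 0 < c ∧ ∀ N : ℕ, 1 ≤ N →
    c * (N : ℝ) ^ (-(5 / 4) : ℝ) ≤ (planeMeasure {ω | FourArm N ω}).toReal := by
  obtain ⟨c, C, hc, -, h⟩ := piv_bounds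
  refine ⟨c * (4 : ℝ) ^ (-(5 / 4) : ℝ), by positivity, fun N hN => ?_⟩
  have h1 := (h (2 * N + 2) (by omega) (0, 0) true).1
  have h2 := piv_le_fourArm (2 * N + 2) N (by omega)
  refine le_trans ?_ (h1.trans h2)
  rw [mul_assoc, ← Real.mul_rpow (by norm_num) (Nat.cast_nonneg N)]
  refine mul_le_mul_of_nonneg_left ?_ hc.le
  refine Real.rpow_le_rpow_of_nonpos (by positivity) ?_ (by norm_num)
  push_cast
  have : (1 : ℝ) ≤ N := by exact_mod_cast hN
  linarith

end Pool.Agent.H63.Four
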